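import Pool.Agent.W2helper39.BR.Pnc

/-!
Entire curves: linear differential equations of bounded order with coefficients meromorphic at
infinity.
-/

set_option autoImplicit false

namespace Pool.Agent.W2helper39.BR

open MvPolynomial Metric
open Filter Topology Pool.Agent.TH143 Pool.Agent.W603.BP

/-- the functions holomorphic near infinity and meromorphic at infinity -/
def coefsInf (ρ : ℝ) : Subalgebra ℂ (ℂ → ℂ) where
  carrier := {b | AnalyticOnNhd ℂ b (Ext ρ) ∧ MeromorphicAt (fun w => b w⁻¹) 0}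
  mul_mem' := fun ha hb => ⟨ha.1.mul hb.1, ha.2.mul hb.2⟩
  add_mem' := fun ha hb => ⟨ha.1.add hb.1, ha.2.add hb.2⟩
  algebraMap_mem' := fun c => ⟨analyticOnNhd_const, MeromorphicAt.const c 0⟩

theorem coefsInf_ring {ρ : ℝ} (hρ : 0 < ρ) : DiffRing (Ext ρ) (coefsInf ρ) where
  an := fun _ hb => hb.1
  der := fun b hb => by
    refine ⟨deriv b, ⟨hb.1.deriv, ?_⟩, fun z hz => (hb.1 z hz).differentiableAt.hasDerivAt⟩
    have h1 : MeromorphicAt (fun w => -(w ^ 2) * deriv (fun w => b w⁻¹) w) 0 :=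
      ((MeromorphicAt.id 0).fun_pow 2).fun_neg.fun_mul hb.2.deriv
    refine h1.congr ?_
    filter_upwards [PB_mem (inv_pos.mpr hρ)] with w hw
    have h2 : w⁻¹ ∈ Ext ρ := by
      have := inv_mem_Ext hw
      rwa [inv_inv] at this
    have h3 : HasDerivAt b (deriv b w⁻¹) w⁻¹ := (hb.1 _ h2).differentiableAt.hasDerivAt
    have h4 := (h3.comp w (hasDerivAt_inv hw.1)).deriv
    have h5 : deriv (fun w => b w⁻¹) w = deriv b w⁻¹ * -(w ^ 2)⁻¹ := h4
    rw [h5]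
    have := hw.1
    field_simp

theorem mrel_of_algInf {ρ : ℝ} (hρ : 0 < ρ) {e e' : ℂ → ℂ} (he : Pun fun w => e w⁻¹)
    (he' : Pun fun w => e' w⁻¹) (hn : Nz fun w => e' w⁻¹)
    (h : AlgOver (Ext ρ) (coefsInf ρ) e e') : MRel (fun w => e w⁻¹) fun w => e' w⁻¹ := by
  obtain ⟨m, c, hc, ⟨k, hk, z, hz, hkz⟩, hall⟩ := h
  have hρ' : 0 < ρ⁻¹ := inv_pos.mpr hρ
  refine mrel_of_alg he he' hn m (fun k w => c k w⁻¹) (fun k => (hc k).2) ⟨k, hk, fun h0 => ?_⟩
    (ev_iff.mpr ⟨ρ⁻¹, hρ', fun w hw => ?_⟩)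
  · have h1 : AnalyticOnNhd ℂ (fun w => c k w⁻¹) (PB ρ⁻¹) := by
      intro w hw
      have h2 : w⁻¹ ∈ Ext ρ := by
        have := inv_mem_Ext hw
        rwa [inv_inv] at this
      exact ((hc k).1 _ h2).fun_comp (analyticAt_inv hw.1)
    have h2 := eq_zero_on hρ' h1 h0 z⁻¹ (inv_mem_PB hρ' (by rwa [inv_inv]))
    rw [inv_inv] at h2
    exact hkz h2
  · have h2 : w⁻¹ ∈ Ext ρ := by
      have := inv_mem_Ext hw
      rwa [inv_inv] at this
    exact hall _ h2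

/-- The coefficients are holomorphic near infinity. -/
theorem OdeInf.over {r : ℕ} {g : ℂ → ℂ} (h : OdeInf r g) :
    ∃ δ > 0, ∀ δ' : ℝ, 0 < δ' → δ' ≤ δ → OdeOver (Ext δ'⁻¹) (coefsInf δ'⁻¹) r g := by
  obtain ⟨a, ha, ⟨k0, hk0, hn⟩, h⟩ := h
  have h1 : ∀ᶠ w in 𝓝[≠] (0 : ℂ), ∀ k ∈ Finset.range (r + 1),
      AnalyticAt ℂ (fun w => a k w⁻¹) w := by
    rw [Filter.eventually_all_finset]
    intro k _
    exact Pun.mero (ha k)
  obtain ⟨δ, hδ, hall⟩ := ev_iff.mp (h1.and h)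
  refine ⟨δ, hδ, fun δ' hδ' hle => ⟨fun k => if k ≤ r then a k else 0, fun k => ?_, ?_, ?_⟩⟩
  · change (if k ≤ r then a k else 0) ∈ coefsInf δ'⁻¹
    by_cases hk : k ≤ r
    · rw [if_pos hk]
      refine ⟨fun z hz => ?_, ha k⟩
      have h2 : z⁻¹ ∈ PB δ' := inv_mem_PB hδ' hz
      have h3 := (hall _ (PB_mono hle h2)).1 k (Finset.mem_range.mpr (by omega))
      have hz0 : z ≠ 0 := fun h => h2.1 (by rw [h, inv_zero])
      have h4 : AnalyticAt ℂ (fun x => (fun w => a k w⁻¹) x⁻¹) z :=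
        h3.fun_comp (analyticAt_inv hz0)
      simpa only [inv_inv] using h4
    · rw [if_neg hk]
      exact Subalgebra.zero_mem _
  · refine ⟨k0, hk0, ?_⟩
    by_contra hcon
    push Not at hcon
    apply hn
    rw [if_pos hk0] at hcon
    exact ev_iff.mpr ⟨δ', hδ', fun w hw => hcon _ (inv_mem_Ext hw)⟩
  · intro z hz
    have h2 : z⁻¹ ∈ PB δ' := inv_mem_PB hδ' hz
    have h3 := (hall _ (PB_mono hle h2)).2
    rw [inv_inv] at h3
    rw [← h3]
    refine Finset.sum_congr rfl fun k hk => ?_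
    change (if k ≤ r then a k else 0) z * _ = _
    rw [if_pos (by have := Finset.mem_range.mp hk; omega)]

theorem OdeInf.normal {r : ℕ} {g : ℂ → ℂ} (h : OdeInf r g) :
    ∃ (m : ℕ) (c : ℕ → ℂ → ℂ), (∀ k, MeromorphicAt (fun w => c k w⁻¹) 0) ∧
      ∀ᶠ w in 𝓝[≠] (0 : ℂ), iteratedDeriv m g w⁻¹
        = ∑ k ∈ Finset.range m, c k w⁻¹ * iteratedDeriv k g w⁻¹ := by
  classical
  obtain ⟨a, ha, ⟨k0, hk0, hn⟩, h⟩ := h
  let T := (Finset.range (r + 1)).filter fun k => Nz fun w => a k w⁻¹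
  have hT : T.Nonempty :=
    ⟨k0, Finset.mem_filter.mpr ⟨Finset.mem_range.mpr (Nat.lt_succ_of_le hk0), hn⟩⟩
  set l := T.max' hT with hl
  have hlT : l ∈ T := T.max'_mem hT
  have hlm : l ≤ r := Nat.lt_succ_iff.mp (Finset.mem_range.mp (Finset.mem_filter.mp hlT).1)
  have hlN : Nz fun w => a l w⁻¹ := (Finset.mem_filter.mp hlT).2
  have hbig' : ∀ᶠ w in 𝓝[≠] (0 : ℂ), ∀ k ∈ Finset.range (r + 1), l < k → a k w⁻¹ = 0 := by
    rw [Filter.eventually_all_finset]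
    intro k hk
    by_cases hlk : l < k
    · have : ∀ᶠ w in 𝓝[≠] (0 : ℂ), a k w⁻¹ = 0 := by
        by_contra hcon
        have : k ∈ T := Finset.mem_filter.mpr ⟨hk, hcon⟩
        exact absurd (T.le_max' k this) (not_le.mpr hlk)
      filter_upwards [this] with w hw _
      exact hw
    · exact Eventually.of_forall fun w h => absurd h hlk
  refine ⟨l, fun k z => -(a k z / a l z), fun k => ((ha k).fun_div (ha l)).fun_neg, ?_⟩
  filter_upwards [h, hbig', mero_ne (ha l) hlN] with w h1 h2 h3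
  have hsub : Finset.range (l + 1) ⊆ Finset.range (r + 1) := by
    intro k hk
    rw [Finset.mem_range] at hk ⊢
    omega
  rw [← Finset.sum_subset hsub (by
    intro k hk hk'
    have : l < k := by
      rw [Finset.mem_range] at hk'
      omega
    rw [h2 k hk this, zero_mul]), Finset.sum_range_succ] at h1
  have h4 : ∑ k ∈ Finset.range l, -(a k w⁻¹ / a l w⁻¹) * iteratedDeriv k g w⁻¹
      = -(a l w⁻¹)⁻¹ * ∑ k ∈ Finset.range l, a k w⁻¹ * iteratedDeriv k g w⁻¹ := by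
    rw [Finset.mul_sum]
    refine Finset.sum_congr rfl fun k _ => ?_
    field_simp
  rw [h4]
  have h5 : ∑ k ∈ Finset.range l, a k w⁻¹ * iteratedDeriv k g w⁻¹
      = -(a l w⁻¹ * iteratedDeriv l g w⁻¹) := by
    linear_combination h1
  rw [h5, neg_mul_neg, inv_mul_cancel_left₀ h3]

theorem linSys_of_odeInf {J : Type} [Fintype J] (f : ℂ → J → ℂ) {r : ℕ}
    (hf : ∀ j, Differentiable ℂ (fun w => f w j)) (hlin : ∀ j, OdeInf r (fun w => f w j)) :
    LinSys (fun w => f w⁻¹) := by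
  choose m c hc h using fun j => (hlin j).normal
  obtain ⟨n, A, y, L, h1, h2⟩ := exists_system (fun j w => f w j) m c
  have h3 : ∀ᶠ w in 𝓝[≠] (0 : ℂ),
      (∀ i, HasDerivAt (fun w => y w i) (∑ k, A i k w⁻¹ * y w⁻¹ k) w⁻¹) ∧
      ∀ j, f w⁻¹ j = ∑ k, L j k * y w⁻¹ k := by
    filter_upwards [eventually_all.mpr h] with w hw
    exact h2 w⁻¹ (fun j => (hf j).analyticAt _) hw
  refine ⟨n, fun i k w => -(w ^ 2)⁻¹ * A i k w⁻¹, fun w => y w⁻¹, L, fun i k => ?_, ?_,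
    h3.mono fun w hw => hw.2⟩
  · obtain ⟨α, ε, j, l, hA⟩ := h1 i k
    change MeromorphicAt (fun w => -(w ^ 2)⁻¹ * A i k w⁻¹) 0
    rw [show (fun w => -(w ^ 2)⁻¹ * A i k w⁻¹) = fun w => -(w ^ 2)⁻¹ * (α + ε * c j l w⁻¹) from
      funext fun w => by rw [hA]]
    exact ((MeromorphicAt.id 0).fun_pow 2).fun_inv.fun_neg.fun_mul
      ((MeromorphicAt.const _ 0).fun_add ((MeromorphicAt.const _ 0).fun_mul (hc j l)))
  · filter_upwards [h3, self_mem_nhdsWithin] with w hw hw0 i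
    have hw0' : w ≠ 0 := hw0
    have := (hw.1 i).comp w (hasDerivAt_inv hw0')
    refine this.congr_deriv ?_
    rw [Finset.sum_mul]
    refine Finset.sum_congr rfl fun k _ => ?_
    ring

/-- **Entire curves.** -/
theorem inf_main {n r : ℕ} (f : ℂ → Fin (n + 1) → ℂ)
    (hf : ∀ j, Differentiable ℂ fun w => f w j) (hne : ∀ w, f w ≠ 0)
    (hode : ∀ j, OdeInf r fun w => f w j)
    {ι : Type} (G : ι → MvPolynomial (Fin (n + 1)) ℂ) (hG : ∀ z, ∀ i, eval (f z) (G i) = 0)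
    (Q : MvPolynomial (Fin (n + 1)) ℂ) (hQ : ∀ z, eval (f z) Q ≠ 0)
    (Φ : MvPolynomial (Fin (n + 1)) ℂ) (hΦ : GmQ r G Q Φ) (hess : ¬ Extends fun w => f w⁻¹) :
    ∀ z, eval (f z) Φ = 0 := by
  classical
  have hlin : LinSys (fun w => f w⁻¹) := linSys_of_odeInf f hf hode
  have hfa : ∀ j (S : Set ℂ), AnalyticOnNhd ℂ (fun w => f w j) S := fun j S z _ =>
    (hf j).analyticAt z
  have hfi : ∀ j, AnalyticOnNhd ℂ (fun w => f w⁻¹ j) (PB 1) := fun j w hw =>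
    ((hf j).analyticAt _).fun_comp (analyticAt_inv hw.1)
  have hqan : AnalyticOnNhd ℂ (fun w => eval (f w⁻¹) Q) (PB 1) := eval_an hfi Q
  obtain ⟨C', K', hC', hgrQ⟩ := Grow.eval (grow_of_linSys hlin) Q
  obtain ⟨b, hb, hbd⟩ := logderiv_mero hqan (fun w _ => hQ w⁻¹) hC' hgrQ
  choose δ0 hδ0 hδ0' using fun j => (hode j).over
  obtain ⟨δ1, hδ1, hall⟩ := ev_iff.mp (hbd.and (Pun.mero hb))
  obtain ⟨δ2, hδ2, hδ2'⟩ : ∃ δ2 > 0, ∀ j, δ2 ≤ δ0 j :=
    ⟨Finset.univ.inf' Finset.univ_nonempty δ0, by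
      rw [gt_iff_lt, Finset.lt_inf'_iff]
      exact fun j _ => hδ0 j, fun j => Finset.inf'_le _ (Finset.mem_univ j)⟩
  set δ := min (min δ1 δ2) 1 with hδ
  have hδpos : 0 < δ := by positivity
  have hδd : PB δ ⊆ PB δ1 := PB_mono ((min_le_left _ _).trans (min_le_left _ _))
  have hρ : 0 < δ⁻¹ := inv_pos.mpr hδpos
  have hExt : ∀ z ∈ Ext δ⁻¹, z ≠ 0 ∧ z⁻¹ ∈ PB δ := fun z hz =>
    ⟨ext_ne_zero hρ.le hz, inv_mem_PB hδpos hz⟩
  have hmain := dom_main (Ext_open δ⁻¹) (Ext_preconn hρ) (coefsInf_ring hρ) f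
    (fun j => hfa j _) (fun z _ => hne z)
    (fun j => hδ0' j δ hδpos (((min_le_left _ _).trans (min_le_right _ _)).trans (hδ2' j)))
    G (fun z _ => hG z) Q (fun z _ => hQ z)
    ⟨1, Subalgebra.one_mem _, fun z => -(z ^ 2)⁻¹ * b z⁻¹, ⟨fun z hz => by
        obtain ⟨h0, h1⟩ := hExt z hz
        have h2 : AnalyticAt ℂ (fun x => b x⁻¹) z :=
          ((hall _ (hδd h1)).2).fun_comp (analyticAt_inv h0)
        exact ((analyticAt_id.pow 2).inv (pow_ne_zero 2 h0)).neg.mul h2, by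
        have h3 : MeromorphicAt (fun w : ℂ => -(w⁻¹ ^ 2)⁻¹ * b w) 0 :=
          (((MeromorphicAt.id 0).fun_inv.fun_pow 2).fun_inv).fun_neg.fun_mul hb
        simpa only [inv_inv] using h3⟩, by
      obtain ⟨z, hz⟩ := Ext_nonempty δ⁻¹
      exact ⟨z, hz, by simp⟩, fun z hz => by
      obtain ⟨h0, h1⟩ := hExt z hz
      have h2 := (hall _ (hδd h1)).1
      have h3 : HasDerivAt (fun x => (fun w => eval (f w⁻¹) Q) x⁻¹)
          (b z⁻¹ * eval (f (z⁻¹)⁻¹) Q * -(z ^ 2)⁻¹) z := h2.comp z (hasDerivAt_inv h0)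
      simp only [inv_inv] at h3
      rw [h3.deriv]
      simp only [Pi.one_apply]
      ring⟩ Φ hΦ
  rcases hmain with h | h
  · exfalso
    apply hess
    apply extends_of _ hfi (fun w _ => hne w⁻¹)
    intro j k hj hk
    refine mrel_of_algInf (e := fun w => f w j) (e' := fun w => f w k) hρ
      (on_pun one_pos (hfi j)) (on_pun one_pos (hfi k)) hk (h j k ?_)
    obtain ⟨w, hw, hw'⟩ := nz_on hδpos hk
    exact ⟨w⁻¹, inv_mem_Ext hw, hw'⟩
  · intro z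
    have h1 : AnalyticOnNhd ℂ (fun w => eval (f w) Φ) Set.univ :=
      eval_an (fun j => hfa j _) Φ
    obtain ⟨z0, hz0⟩ := Ext_nonempty δ⁻¹
    refine h1.eqOn_zero_of_preconnected_of_eventuallyEq_zero isPreconnected_univ
      (Set.mem_univ z0) ?_ (Set.mem_univ z)
    filter_upwards [(Ext_open δ⁻¹).mem_nhds hz0] with x hx
    exact h x hx

end Pool.Agent.W2helper39.BR
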