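import Pool.Agent.H159R3.Exp.Curve

/-!
Curves through a point of an exponential curve: the form of the exponents.
-/

set_option autoImplicit false

namespace Pool.Agent.W2helper39.BR

open Filter Metric Set Topology MvPolynomial
open Pool.Agent.H159R3.Exp (vec exists_b hasDerivAt_eval core')

/-- the two kinds of curves -/
def Kind {m : ℕ} (g : Fin m → ℂ → ℂ) (z0 : ℂ) (V : ℂ → Fin (m + 1) → ℂ) : Prop :=
  (∃ b : Fin m → ℤ, ∀ t, V t = (Fin.cons z0 fun i => Complex.exp (g i z0) * t ^ b i :
    Fin (m + 1) → ℂ)) ∨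
  ∀ t, V t = (Fin.cons (z0 + (t - 1)) fun i => Complex.exp (g i z0) : Fin (m + 1) → ℂ)

/-- An entire curve given by polynomials in the variable and in exponentials lies in a family of
rational curves. -/
theorem curve2 {n m : ℕ} (g : Fin m → ℂ → ℂ) (hg : ∀ i, Differentiable ℂ (g i))
    (P : Fin n → MvPolynomial (Fin (m + 1)) ℂ) (w : Fin n → ℂ) (z0 : ℂ)
    (hd : deriv (fun z => ∑ j, w j * eval (vec g z) (P j)) z0 ≠ 0) :
    ∃ V : ℂ → Fin (m + 1) → ℂ, Kind g z0 V ∧ V 1 = vec g z0 ∧
      (∃ t, t ≠ 0 ∧ ∑ j, w j * eval (V t) (P j) ≠ ∑ j, w j * eval (V 1) (P j)) ∧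
      ∀ F : MvPolynomial (Fin n) ℂ, (∀ z, eval (fun j => eval (vec g z) (P j)) F = 0) →
        ∀ t, t ≠ 0 → eval (fun j => eval (V t) (P j)) F = 0 := by
  classical
  set Pw : MvPolynomial (Fin (m + 1)) ℂ := ∑ j, C (w j) * P j with hPw
  have hPwe : ∀ y, eval y Pw = ∑ j, w j * eval y (P j) := by
    intro y
    rw [hPw, map_sum]
    refine Finset.sum_congr rfl fun j _ => ?_
    rw [map_mul, eval_C]
  have hvd : ∀ l, HasDerivAt (fun z => vec g z l)
      ((Fin.cons 1 fun i => Complex.exp (g i z0) * deriv (g i) z0 : Fin (m + 1) → ℂ) l) z0 := by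
    intro l
    refine Fin.cases ?_ (fun i => ?_) l
    · simpa [vec] using hasDerivAt_id' z0
    · simpa [vec] using ((hg i) z0).hasDerivAt.cexp
  have h1 := hasDerivAt_eval (vec g) _ z0 hvd Pw
  have h2 : (fun z => eval (vec g z) Pw) = fun z => ∑ j, w j * eval (vec g z) (P j) :=
    funext fun z => hPwe _
  rw [h2] at h1
  rw [h1.deriv, Fin.sum_univ_succ] at hd
  simp only [Fin.cons_zero, Fin.cons_succ, mul_one] at hd
  set D : Fin (m + 1) → ℂ := fun l => eval (vec g z0) (pderiv l Pw) with hD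
  have hclos : ∀ (V : ℂ → Fin (m + 1) → ℂ) (_ : ∀ (Q : MvPolynomial (Fin (m + 1)) ℂ),
      (∀ z, eval (vec g z) Q = 0) → ∀ t, t ≠ 0 → eval (V t) Q = 0) (F : MvPolynomial (Fin n) ℂ),
      (∀ z, eval (fun j => eval (vec g z) (P j)) F = 0) → ∀ t, t ≠ 0 →
      eval (fun j => eval (V t) (P j)) F = 0 := by
    intro V hV F hF t ht
    have h3 := hV (bind₁ P F) (fun z => by rw [eval, eval₂Hom_bind₁]; exact hF z) t ht
    rw [eval, eval₂Hom_bind₁] at h3
    exact h3
  -- nonconstant
  have hnc : ∀ (V : ℂ → Fin (m + 1) → ℂ) (V' : Fin (m + 1) → ℂ),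
      (∀ l, HasDerivAt (fun t => V t l) (V' l) 1) → V 1 = vec g z0 → ∑ l, D l * V' l ≠ 0 →
      ∃ t, t ≠ 0 ∧ ∑ j, w j * eval (V t) (P j) ≠ ∑ j, w j * eval (V 1) (P j) := by
    intro V V' hV hV1 hne
    by_contra hcon
    push Not at hcon
    apply hne
    have h3 := hasDerivAt_eval V V' 1 hV Pw
    have h4 : (fun t => eval (V t) Pw) =ᶠ[𝓝 1] fun _ => eval (V 1) Pw := by
      filter_upwards [isOpen_ne.mem_nhds (one_ne_zero : (1 : ℂ) ≠ 0)] with t ht
      rw [hPwe, hPwe]
      exact hcon t ht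
    have h5 := (hasDerivAt_const (1 : ℂ) (eval (V 1) Pw)).congr_of_eventuallyEq h4
    have h6 := h3.unique h5
    rw [hV1] at h6
    exact h6
  by_cases hD0 : D 0 = 0
  · have hd' : ∑ i : Fin m, (D i.succ * Complex.exp (g i z0)) * deriv (g i) z0 ≠ 0 := by
      intro h0
      apply hd
      have h3 : eval (vec g z0) (pderiv 0 Pw) = 0 := hD0
      rw [h3, zero_add, ← h0]
      refine Finset.sum_congr rfl fun i _ => ?_
      simp only [hD]
      ring
    obtain ⟨b, hb, hbD⟩ := exists_b _ _ hd'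
    let V : ℂ → Fin (m + 1) → ℂ := fun t =>
      Fin.cons z0 fun i => Complex.exp (g i z0) * t ^ b i
    have hV1 : V 1 = vec g z0 := by
      simp [V, vec]
    refine ⟨V, Or.inl ⟨b, fun t => rfl⟩, hV1, ?_, ?_⟩
    · apply hnc V (Fin.cons 0 fun i => Complex.exp (g i z0) * b i)
      · intro l
        refine Fin.cases ?_ (fun i => ?_) l
        · simpa [V] using hasDerivAt_const (1 : ℂ) z0
        · have h3 := (hasDerivAt_zpow (b i) (1 : ℂ) (Or.inl one_ne_zero)).const_mul
            (Complex.exp (g i z0))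
          simpa [V] using h3
      · exact hV1
      · rw [Fin.sum_univ_succ]
        simp only [Fin.cons_zero, Fin.cons_succ, mul_zero, zero_add]
        intro h0
        apply hbD
        rw [← h0]
        refine Finset.sum_congr rfl fun i _ => ?_
        ring
    · apply hclos V
      intro Q hQ t ht
      apply core' g hg z0 (fun i => t ^ b i) (fun i => zpow_ne_zero _ ht) _ z0 Q hQ
      intro q hq
      have h3 := hb q hq
      have h4 : ∏ i, (t ^ b i) ^ q i = t ^ (∑ i, q i * b i) := by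
        induction (Finset.univ : Finset (Fin m)) using Finset.induction_on with
        | empty => simp
        | insert a s ha ih =>
          rw [Finset.prod_insert ha, Finset.sum_insert ha, zpow_add₀ ht, ih, ← zpow_mul,
            mul_comm (b a)]
      rw [h4, h3, zpow_zero]
  · let V : ℂ → Fin (m + 1) → ℂ := fun t =>
      Fin.cons (z0 + (t - 1)) fun i => Complex.exp (g i z0)
    have hV1 : V 1 = vec g z0 := by
      simp [V, vec]
    refine ⟨V, Or.inr fun t => rfl, hV1, ?_, ?_⟩
    · apply hnc V (Fin.cons 1 fun i => 0)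
      · intro l
        refine Fin.cases ?_ (fun i => ?_) l
        · have h3 := ((hasDerivAt_id (1 : ℂ)).sub_const 1).const_add z0
          simpa [V] using h3
        · simpa [V] using hasDerivAt_const (1 : ℂ) (Complex.exp (g i z0))
      · exact hV1
      · rw [Fin.sum_univ_succ]
        simpa using hD0
    · apply hclos V
      intro Q hQ t ht
      have h3 := core' g hg z0 (fun _ => 1) (fun _ => one_ne_zero) (by simp) (z0 + (t - 1)) Q hQ
      simpa [V] using h3

end Pool.Agent.W2helper39.BR
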