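import Pool.Agent.W2helper39.BR.ExpF
import Pool.Agent.W2helper39.BR.Cur
import Pool.Agent.TH143.Local

/-!
Curves with few terms through the points of a curve given by solutions of linear differential
equations: the local theorem.
-/

set_option autoImplicit false

namespace Pool.Agent.W2helper39.BR

open MvPolynomial Metric Set Filter Topology
open Pool.Agent.TH143
open Pool.Agent.H159R3.Exp (vec)

/-- sums of `r` powers -/
def Few (r : ℕ) (w : ℂ → ℂ) : Prop :=
  ∃ (a : Fin r → ℂ) (β : Fin r → ℤ), ∀ t, t ≠ 0 → w t = ∑ p, a p * t ^ β p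

theorem few_shift {r : ℕ} (C : Fin r → Fin r → ℂ) {w : ℂ → ℂ}
    (hw : ∀ t, w t = ∑ p, ∑ k : Fin r, C p k * (t - 1) ^ (k : ℕ)) : Few r w := by
  rcases Nat.eq_zero_or_pos r with rfl | hr
  · exact ⟨fun _ => 0, fun _ => 0, fun t _ => by rw [hw]; simp⟩
  let P : Polynomial ℂ := ∑ p, ∑ k : Fin r, Polynomial.C (C p k) * (Polynomial.X - 1) ^ (k : ℕ)
  have hP : ∀ t, P.eval t = w t := by
    intro t
    rw [hw]
    simp only [P, Polynomial.eval_finsetSum, Polynomial.eval_mul, Polynomial.eval_C,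
      Polynomial.eval_pow, Polynomial.eval_sub, Polynomial.eval_X, Polynomial.eval_one]
  have hdeg : P.natDegree < r := by
    have h1 : P.natDegree ≤ r - 1 := by
      apply Polynomial.natDegree_sum_le_of_forall_le
      intro p _
      apply Polynomial.natDegree_sum_le_of_forall_le
      intro k _
      refine (Polynomial.natDegree_C_mul_le _ _).trans ?_
      refine (Polynomial.natDegree_pow_le).trans ?_
      have h2 : (Polynomial.X - 1 : Polynomial ℂ).natDegree ≤ 1 := by
        have := Polynomial.natDegree_X_sub_C_le (1 : ℂ)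
        simpa using this
      have h3 := k.2
      calc (k : ℕ) * (Polynomial.X - 1 : Polynomial ℂ).natDegree ≤ k * 1 :=
            Nat.mul_le_mul_left _ h2
        _ ≤ r - 1 := by omega
    omega
  refine ⟨fun p => P.coeff p, fun p => (p : ℕ), fun t _ => ?_⟩
  rw [← hP, Polynomial.eval_eq_sum_range' hdeg, Finset.sum_range]
  refine Finset.sum_congr rfl fun p _ => ?_
  rw [zpow_natCast]

section

variable {ι : Type} {n M : ℕ}

/-- the coordinates -/
noncomputable def phi (Lc : Fin M → Fin n → ι) (c : Fin n → ℂ) (j : Fin M) :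
    MvPolynomial (ι ⊕ (Fin n × Fin n)) ℂ :=
  ∑ k, ∑ l, X (Sum.inl (Lc j k)) * X (Sum.inr (k, l)) * C (c l)

theorem eval_phi (Lc : Fin M → Fin n → ι) (c : Fin n → ℂ) (j : Fin M)
    (x : ι ⊕ (Fin n × Fin n) → ℂ) :
    eval x (phi Lc c j) = ∑ k, ∑ l, x (Sum.inl (Lc j k)) * x (Sum.inr (k, l)) * c l := by
  simp only [phi, map_sum, map_mul, eval_X, eval_C]

/-- block diagonal matrices -/
theorem blk_inv {blk : Fin n → Fin M} {U : Matrix (Fin n) (Fin n) ℂ} (hdet : U.det ≠ 0)
    (hU : ∀ i k, blk i ≠ blk k → U i k = 0) {T : Matrix (Fin n) (Fin n) ℂ}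
    (hT : ∀ i k, blk i ≠ blk k → T i k = 0) (i k : Fin n) (hik : blk i ≠ blk k) :
    (U⁻¹ * T) i k = 0 := by
  classical
  let P : Matrix (Fin n) (Fin n) ℂ := Matrix.diagonal fun l => if blk l = blk i then 1 else 0
  have hc : ∀ W : Matrix (Fin n) (Fin n) ℂ, (∀ i k, blk i ≠ blk k → W i k = 0) → P * W = W * P := by
    intro W hW
    ext a b
    rw [Matrix.diagonal_mul, Matrix.mul_diagonal]
    by_cases hab : blk a = blk b
    · rw [hab, mul_comm]
    · rw [hW a b hab, mul_zero, zero_mul]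
  have h1 : P * U⁻¹ = U⁻¹ * P := by
    have h2 := hc U hU
    have hu : IsUnit U.det := hdet.isUnit
    calc P * U⁻¹ = U⁻¹ * U * P * U⁻¹ := by rw [Matrix.nonsing_inv_mul _ hu, Matrix.one_mul]
      _ = U⁻¹ * (P * U) * U⁻¹ := by rw [Matrix.mul_assoc U⁻¹ U P, h2]
      _ = U⁻¹ * P := by
        rw [Matrix.mul_assoc, Matrix.mul_assoc P, Matrix.mul_nonsing_inv _ hu, Matrix.mul_one]
  have h2 : P * (U⁻¹ * T) = U⁻¹ * T * P := by
    rw [← Matrix.mul_assoc, h1, Matrix.mul_assoc, hc T hT, Matrix.mul_assoc]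
  have h3 := congrFun (congrFun h2 i) k
  rw [Matrix.diagonal_mul, Matrix.mul_diagonal, if_pos rfl, if_neg (Ne.symm hik), one_mul,
    mul_zero] at h3
  exact h3

end

theorem local_curve2 {S : Set ℂ} (hS : IsOpen S) (hSc : IsPreconnected S) (hne : S.Nonempty)
    {ι : Type} (b : ι → ℂ → ℂ) (hb : ∀ i, AnalyticOnNhd ℂ (b i) S) (d : ι → ι)
    (hd : ∀ i, ∀ z ∈ S, HasDerivAt (b i) (b (d i) z) z)
    {n M r : ℕ} (A : Fin n → Fin n → ι) (U : ℂ → Matrix (Fin n) (Fin n) ℂ)
    (hU : ∀ z ∈ S, ∀ i j, HasDerivAt (fun w => U w i j) (∑ k, b (A i k) z * U z k j) z)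
    (hdet : ∀ z ∈ S, (U z).det ≠ 0)
    (blk : Fin n → Fin M) (hr : ∀ j, (Finset.univ.filter fun i => blk i = j).card ≤ r)
    (hUb : ∀ z ∈ S, ∀ i k, blk i ≠ blk k → U z i k = 0)
    (B : Subalgebra ℂ (Hol S)) (hB : ∀ i, toHol (b i) (hb i) ∈ B)
    (Lc : Fin M → Fin n → ι) (hLc : ∀ j k, blk k ≠ j → ∀ z ∈ S, b (Lc j k) z = 0)
    (c : Fin n → ℂ) (j0 j1 : Fin M)
    (hj0 : ∃ z ∈ S, eval (vv b U z) (phi Lc c j0) ≠ 0)
    (hNA : ∀ (m : ℕ) (cc : ℕ → B), (∀ z : S, ∑ k ∈ Finset.range (m + 1),
      evz z (cc k : Hol S) * (eval (vv b U z) (phi Lc c j1)) ^ k *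
        (eval (vv b U z) (phi Lc c j0)) ^ (m - k) = 0) →
      ∀ k ≤ m, cc k = 0)
    (Q : MvPolynomial (Fin M) ℂ) (iq : ι)
    (hQ : ∀ z ∈ S, eval (fun j => eval (vv b U z) (phi Lc c j)) Q ≠ 0)
    (hQ' : ∀ z ∈ S, HasDerivAt (fun w => eval (fun j => eval (vv b U w) (phi Lc c j)) Q)
      (b iq z * eval (fun j => eval (vv b U z) (phi Lc c j)) Q) z)
    (z0 : ℂ) (hz0 : z0 ∈ S) :
    ∀ᶠ z in 𝓝[≠] z0, ∃ w : ℂ → Fin M → ℂ, (∀ j, Few r (fun t => w t j)) ∧
      (∀ j, w 1 j = eval (vv b U z) (phi Lc c j)) ∧ (∀ t, t ≠ 0 → eval (w t) Q ≠ 0) ∧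
      (∃ t, t ≠ 0 ∧ w t j1 * w 1 j0 ≠ w t j0 * w 1 j1) ∧
      ∀ R : MvPolynomial (Fin M) ℂ,
        (∀ z ∈ S, eval (fun j => eval (vv b U z) (phi Lc c j)) R = 0) →
          ∀ t, t ≠ 0 → eval (w t) R = 0 := by
  classical
  set Φ : Fin M → MvPolynomial (ι ⊕ (Fin n × Fin n)) ℂ := phi Lc c with hΦdef
  set v := vv b U with hv
  -- the system
  have hsol : Sol (EE d A) v S := by
    intro z hz l
    rcases l with i | ⟨i, j⟩
    · have := hd i z hz
      simpa [EE, v, vv] using this
    · have := hU z hz i j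
      simpa [EE, v, vv] using this
  have hvan : ∀ l, AnalyticOnNhd ℂ (fun z => v z l) S := by
    intro l
    have := hsol.analytic hS (X l)
    simpa using this
  let V : ι ⊕ (Fin n × Fin n) → Hol S := fun l => toHol (fun z => v z l) (hvan l)
  have hVe : ∀ (z : S), (fun l => evz z (V l)) = v z := fun z => rfl
  have hVP : ∀ (z : S) (P : MvPolynomial (ι ⊕ (Fin n × Fin n)) ℂ),
      evz z (aeval V P) = eval (v z) P := by
    intro z P
    have h4 := MvPolynomial.comp_aeval_apply (f := V) (evz z) P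
    rw [h4, ← MvPolynomial.aeval_eq_eval]
    rfl
  have hrel : ∀ P, Rel v S P ↔ aeval V P = 0 := by
    intro P
    constructor
    · intro h
      exact hol_ext fun z => by rw [hVP, map_zero]; exact h z z.2
    · intro h z hz
      rw [← hVP ⟨z, hz⟩, h, map_zero]
  obtain ⟨a, T, haM⟩ := exists_tangent hSc hne B V (fun i => hB i) (Φ j0) (Φ j1) (by
      obtain ⟨z, hz, h⟩ := hj0
      intro h0
      apply h
      rw [← hVP ⟨z, hz⟩, h0, map_zero]) (by
      intro m c hc
      apply hNA m c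
      intro z
      have h1 := congrArg (evz z) hc
      rw [map_sum, map_zero] at h1
      rw [← h1]
      refine Finset.sum_congr rfl fun k _ => ?_
      rw [map_mul, map_mul, map_pow, map_pow, hVP, hVP])
  set β : Matrix (Fin n) (Fin n) ℂ := (U a)⁻¹ * Matrix.of fun i j => T (i, j) with hβ
  have hUβ : ∀ p : Fin n × Fin n, (U a * β) p.1 p.2 = T p := by
    intro p
    rw [hβ, ← Matrix.mul_assoc, Matrix.mul_nonsing_inv _ ((hdet a a.2).isUnit), Matrix.one_mul]
    rfl
  obtain ⟨haP, haG⟩ := haM (WW β) (fun i => by simp [WW]) (fun p => by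
    rw [← hUβ p, Matrix.mul_apply]
    simp only [WW, Sum.elim_inr, map_sum, map_mul, eval_X, eval_C]
    rfl)
  rw [hVe] at haG haP
  -- the tangent vector is block diagonal
  have hTb : ∀ i k, blk i ≠ blk k → T (i, k) = 0 := by
    intro i k hik
    have h1 := haP (X (Sum.inr (i, k))) ((hrel _).mp fun z hz => by
      rw [eval_X]
      exact hUb z hz i k hik)
    rw [mkDerivation_X] at h1
    rw [← hUβ (i, k), Matrix.mul_apply]
    simp only [WW, Sum.elim_inr, map_sum, map_mul, eval_X, eval_C] at h1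
    exact h1
  have hβb : ∀ i k, blk i ≠ blk k → β i k = 0 := fun i k hik =>
    blk_inv (hdet a a.2) (hUb a a.2) (fun i k hik => by
      rw [Matrix.of_apply]
      exact hTb i k hik) i k hik
  have hδ : ∀ P, Rel v S P → Rel v S (mkDerivation ℂ (WW β) P) :=
    rel_of_point hS hSc hsol (comm_EW d A β) a.2 (fun P hP => haP P ((hrel P).mp hP))
  -- the function which must not vanish
  have hwan : AnalyticOnNhd ℂ (fun z => eval (v z) (mkDerivation ℂ (WW β) (Φ j1))
      * eval (v z) (Φ j0) - eval (v z) (Φ j1) * eval (v z) (mkDerivation ℂ (WW β) (Φ j0))) S :=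
    ((hsol.analytic hS _).mul (hsol.analytic hS _)).sub
      ((hsol.analytic hS _).mul (hsol.analytic hS _))
  have hev : ∀ᶠ z in 𝓝[≠] z0, eval (v z) (mkDerivation ℂ (WW β) (Φ j1))
      * eval (v z) (Φ j0) - eval (v z) (Φ j1) * eval (v z) (mkDerivation ℂ (WW β) (Φ j0)) ≠ 0 := by
    rcases (hwan z0 hz0).eventually_eq_zero_or_eventually_ne_zero with h | h
    · exfalso
      exact haG (hwan.eqOn_zero_of_preconnected_of_eventuallyEq_zero hSc hz0 h a.2)
    · exact h
  have hevS : ∀ᶠ z in 𝓝[≠] z0, z ∈ S := (hS.mem_nhds hz0 |> fun h => mem_nhdsWithin_of_mem_nhds h)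
  filter_upwards [hev, hevS] with z hzw hzS
  -- the exponential polynomial curve
  obtain ⟨e, μ, he0, he, hES⟩ := exists_flow blk hr β hβb
  let y : ℂ → ι ⊕ (Fin n × Fin n) → ℂ := fun t =>
    Sum.elim (fun i => b i z) (fun p => (U z * e t) p.1 p.2)
  have hy0 : y 0 = v z := by
    simp only [y, he0, Matrix.mul_one]
    rfl
  have hysol : Sol (WW β) y univ := by
    intro t _ l
    rcases l with i | ⟨i, j⟩
    · simp only [y, Sum.elim_inl, WW, map_zero]
      exact hasDerivAt_const t _
    · simp only [y, Sum.elim_inr, WW, map_sum, map_mul, eval_X, eval_C]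
      have h1 : HasDerivAt (fun s => (U z * e s) i j) (∑ k, U z i k * (e t * β) k j) t := by
        simp only [Matrix.mul_apply]
        apply HasDerivAt.fun_sum
        intro k _
        have := (he t k j).const_mul (U z i k)
        rw [Matrix.mul_apply] at this
        exact this
      refine h1.congr_deriv ?_
      rw [← Matrix.mul_apply, ← Matrix.mul_assoc, Matrix.mul_apply]
  have hyP : ∀ P, Rel v S P → ∀ t, eval (y t) P = 0 := fun P hP t =>
    rel_flow hδ hzS y hysol hy0 P hP t
  -- the boundary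
  set q := bind₁ Φ Q with hq
  have hqe : ∀ x : ι ⊕ (Fin n × Fin n) → ℂ, eval x q = eval (fun j => eval x (Φ j)) Q := by
    intro x
    rw [hq, eval, eval₂Hom_bind₁]
    rfl
  have hR1 : Rel v S (mkDerivation ℂ (EE d A) q - X (Sum.inl iq) * q) := by
    intro s hs
    have h1 := hasDerivAt_sol (EE d A) v s (hsol s hs) q
    have h2 := hQ' s hs
    simp only [← hqe] at h2
    have h3 := h1.unique h2
    rw [map_sub, map_mul, h3, eval_X]
    exact sub_self _
  have hR2 : Rel v S (mkDerivation ℂ (EE d A) (mkDerivation ℂ (WW β) q)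
      - X (Sum.inl iq) * mkDerivation ℂ (WW β) q) := by
    have h1 := hδ _ hR1
    rw [map_sub, Derivation.leibniz, mkDerivation_X, ← comm_of_X (comm_EW d A β)] at h1
    simpa [WW] using h1
  obtain ⟨γ, hγ⟩ : ∃ γ : ℂ, Rel v S (mkDerivation ℂ (WW β) q - C γ * q) := by
    have hqn : ∀ s ∈ S, eval (v s) q ≠ 0 := fun s hs => by rw [hqe]; exact hQ s hs
    have h1 : ∀ s ∈ S, HasDerivAt (fun s => eval (v s) (mkDerivation ℂ (WW β) q) / eval (v s) q)
        0 s := by
      intro s hs
      have h2 := hasDerivAt_sol (EE d A) v s (hsol s hs) (mkDerivation ℂ (WW β) q)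
      have h3 := hasDerivAt_sol (EE d A) v s (hsol s hs) q
      refine (h2.div h3 (hqn s hs)).congr_deriv ?_
      have h4 := hR1 s hs
      have h5 := hR2 s hs
      rw [map_sub, map_mul, eval_X, sub_eq_zero] at h4 h5
      rw [h4, h5, div_eq_zero_iff]
      left
      ring
    refine ⟨eval (v z) (mkDerivation ℂ (WW β) q) / eval (v z) q, ?_⟩
    intro s hs
    have h6 : eval (v s) (mkDerivation ℂ (WW β) q) / eval (v s) q
        = eval (v z) (mkDerivation ℂ (WW β) q) / eval (v z) q := by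
      have h7 : DifferentiableOn ℂ
          (fun s => eval (v s) (mkDerivation ℂ (WW β) q) / eval (v s) q) S :=
        fun s hs => (h1 s hs).differentiableAt.differentiableWithinAt
      have h8 : EqOn (deriv (fun s => eval (v s) (mkDerivation ℂ (WW β) q) / eval (v s) q)) 0 S :=
        fun s hs => (h1 s hs).deriv
      exact hS.is_const_of_deriv_eq_zero hSc h7 h8 hs hzS
    rw [map_sub, map_mul, eval_C, ← h6, div_mul_cancel₀ _ (hqn s hs), sub_self]
  set q0 := eval (v z) q with hq0
  have hq0n : q0 ≠ 0 := by rw [hq0, hqe]; exact hQ z hzS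
  have hqt : ∀ t, eval (y t) q = q0 * Complex.exp (γ * t) := by
    have h1 : ∀ t, HasDerivAt (fun t => eval (y t) q * Complex.exp (-γ * t)) 0 t := by
      intro t
      have h2 := hasDerivAt_sol (WW β) y t (hysol t (mem_univ t)) q
      have h3 : HasDerivAt (fun t : ℂ => Complex.exp (-γ * t)) (Complex.exp (-γ * t) * (-γ)) t := by
        have := ((hasDerivAt_id t).const_mul (-γ)).cexp
        simpa using this
      refine (h2.mul h3).congr_deriv ?_
      have h4 := hyP _ hγ t
      rw [map_sub, map_mul, eval_C, sub_eq_zero] at h4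
      rw [h4]
      ring
    intro t
    have h5 := is_const_of_deriv_eq_zero (fun t => (h1 t).differentiableAt)
      (fun t => (h1 t).deriv) t 0
    simp only [hy0, mul_zero, Complex.exp_zero, mul_one] at h5
    rw [hq0, ← h5, mul_assoc, ← Complex.exp_add]
    simp
  -- the form of the coordinates
  have hcoord : ∀ j, ES (μ j) fun t => eval (y t) (Φ j) := by
    intro j
    have h1 : (fun t => eval (y t) (Φ j)) = fun t => ∑ k, ∑ l, ∑ p,
        (b (Lc j k) z * U z k p * c l) * e t p l := by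
      funext t
      rw [hΦdef, eval_phi]
      refine Finset.sum_congr rfl fun k _ => Finset.sum_congr rfl fun l _ => ?_
      simp only [y, Sum.elim_inl, Sum.elim_inr, Matrix.mul_apply]
      rw [Finset.mul_sum, Finset.sum_mul]
      refine Finset.sum_congr rfl fun p _ => ?_
      ring
    rw [h1]
    refine ES.sum _ fun k _ => ES.sum _ fun l _ => ES.sum _ fun p _ => ?_
    by_cases hk : blk k = j
    · by_cases hp : blk k = blk p
      · have h2 := hES p l
        rw [← hp, hk] at h2
        exact h2.const_mul _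
      · have h2 : (fun t => (b (Lc j k) z * U z k p * c l) * e t p l) = fun _ => 0 := by
          funext t
          rw [hUb z hzS k p hp]
          ring
        rw [h2]
        exact ES.zero
    · have h2 : (fun t => (b (Lc j k) z * U z k p * c l) * e t p l) = fun _ => 0 := by
        funext t
        rw [hLc j k hk z hzS]
        ring
      rw [h2]
      exact ES.zero
  choose Co hCo' using hcoord
  have hCo : ∀ j t, eval (y t) (Φ j) =
      ∑ p, ∑ k : Fin r, Co j p k * (t ^ (k : ℕ) * Complex.exp (μ j p * t)) := hCo'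
  -- the list of exponents
  let m := Fintype.card (Option (Fin M × Fin r))
  let ee : Option (Fin M × Fin r) ≃ Fin m := Fintype.equivFin _
  let ex : Option (Fin M × Fin r) → ℂ := fun o => o.elim (-γ) fun p => μ p.1 p.2
  let g : Fin m → ℂ → ℂ := fun i t => ex (ee.symm i) * t
  have hg : ∀ i, Differentiable ℂ (g i) := fun i => by fun_prop
  let Po : Option (Fin M) → MvPolynomial (Fin (m + 1)) ℂ := fun o =>
    o.elim (C q0⁻¹ * X (ee none).succ) fun j =>
      ∑ p, ∑ k : Fin r, C (Co j p k) * (X 0 ^ (k : ℕ) * X (ee (some (j, p))).succ)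
  let P : Fin (M + 1) → MvPolynomial (Fin (m + 1)) ℂ := Fin.cons (Po none) fun j => Po (some j)
  have hP0 : ∀ x : Fin (m + 1) → ℂ, eval x (P 0) = q0⁻¹ * x (ee none).succ := by
    intro x
    simp only [P, Fin.cons_zero, Po, Option.elim_none, map_mul, eval_C, eval_X]
  have hPj : ∀ (j : Fin M) (x : Fin (m + 1) → ℂ), eval x (P j.succ) =
      ∑ p, ∑ k : Fin r, Co j p k * (x 0 ^ (k : ℕ) * x (ee (some (j, p))).succ) := by
    intro j x
    simp only [P, Fin.cons_succ, Po, Option.elim_some, map_sum, map_mul, map_pow, eval_C, eval_X]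
  have hPz0 : ∀ t, eval (vec g t) (P 0) = q0⁻¹ * Complex.exp (-γ * t) := by
    intro t
    rw [hP0]
    simp only [vec, Fin.cons_succ, g, ex, Equiv.symm_apply_apply, Option.elim_none]
  have hPzj : ∀ (j : Fin M) (t : ℂ), eval (vec g t) (P j.succ) = eval (y t) (Φ j) := by
    intro j t
    rw [hPj, hCo]
    simp only [vec, Fin.cons_succ, Fin.cons_zero, g, ex, Equiv.symm_apply_apply, Option.elim_some]
  let wt : Fin (M + 1) → ℂ := Fin.cons 0 (fun j => (if j = j1 then eval (v z) (Φ j0) else 0)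
    - (if j = j0 then eval (v z) (Φ j1) else 0))
  have hwt : ∀ x : Fin (M + 1) → ℂ, ∑ j, wt j * x j
      = eval (v z) (Φ j0) * x j1.succ - eval (v z) (Φ j1) * x j0.succ := by
    intro x
    rw [Fin.sum_univ_succ]
    simp only [wt, Fin.cons_zero, zero_mul, zero_add, Fin.cons_succ, sub_mul, ite_mul,
      Finset.sum_sub_distrib, Finset.sum_ite_eq', Finset.mem_univ, if_true]
  have hder : deriv (fun t => ∑ j, wt j * eval (vec g t) (P j)) 0 ≠ 0 := by
    have h1 : (fun t => ∑ j, wt j * eval (vec g t) (P j))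
        = fun t => eval (v z) (Φ j0) * eval (y t) (Φ j1) - eval (v z) (Φ j1) * eval (y t) (Φ j0) := by
      funext t
      rw [hwt (fun j => eval (vec g t) (P j)), hPzj, hPzj]
    rw [h1]
    have h3 := hasDerivAt_sol (WW β) y 0 (hysol 0 (mem_univ 0)) (Φ j1)
    have h4 := hasDerivAt_sol (WW β) y 0 (hysol 0 (mem_univ 0)) (Φ j0)
    have h5 := (h3.const_mul (eval (v z) (Φ j0))).fun_sub (h4.const_mul (eval (v z) (Φ j1)))
    rw [hy0] at h5
    rw [h5.deriv]
    intro h6
    apply hzw
    rw [← h6]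
    ring
  obtain ⟨Vt, hkind, hV1, ⟨t1, ht1, hwt1⟩, hwF⟩ := curve2 g hg P wt 0 hder
  have hw1' : ∀ j : Fin M, eval (Vt 1) (P j.succ) = eval (v z) (Φ j) := by
    intro j
    rw [hV1, hPzj, hy0]
  refine ⟨fun t j => eval (Vt t) (P j.succ), fun j => ?_, hw1', ?_, ⟨t1, ht1, ?_⟩, ?_⟩
  · rcases hkind with ⟨bb, hbb⟩ | hbb
    · refine ⟨fun p => ∑ k : Fin r, Co j p k * 0 ^ (k : ℕ), fun p => bb (ee (some (j, p))),
        fun t _ => ?_⟩
      simp only
      rw [hPj, hbb]
      simp only [Fin.cons_zero, Fin.cons_succ, g, mul_zero, Complex.exp_zero, one_mul,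
        Finset.sum_mul]
      refine Finset.sum_congr rfl fun p _ => Finset.sum_congr rfl fun k _ => ?_
      ring
    · refine few_shift (Co j) fun t => ?_
      change eval (Vt t) (P j.succ) = _
      rw [hPj, hbb]
      simp only [Fin.cons_zero, Fin.cons_succ, g, mul_zero, Complex.exp_zero, mul_one, zero_add]
  · intro t ht hcon
    have h1 := hwF (X 0 * rename Fin.succ Q - 1) (by
      intro s
      rw [map_sub, map_mul, eval_X, map_one, eval_rename, sub_eq_zero]
      have h2 : (fun j => eval (vec g s) (P j)) ∘ Fin.succ = fun j => eval (y s) (Φ j) := by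
        funext j
        exact hPzj j s
      rw [h2, hPz0, ← hqe, hqt]
      have h3 : Complex.exp (-γ * s) * Complex.exp (γ * s) = 1 := by
        rw [← Complex.exp_add]
        simp
      have h4 : q0⁻¹ * q0 = 1 := inv_mul_cancel₀ hq0n
      linear_combination h3 + h4 * (Complex.exp (-γ * s) * Complex.exp (γ * s))) t ht
    rw [map_sub, map_mul, eval_X, map_one, eval_rename] at h1
    have h2 : (fun j => eval (Vt t) (P j)) ∘ Fin.succ = fun j => eval (Vt t) (P j.succ) := rfl
    rw [h2, hcon, mul_zero, zero_sub] at h1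
    exact one_ne_zero (neg_eq_zero.mp h1)
  · intro hcon
    apply hwt1
    rw [hwt, hwt]
    have hcon' : eval (Vt t1) (P j1.succ) * eval (Vt 1) (P j0.succ) =
      eval (Vt t1) (P j0.succ) * eval (Vt 1) (P j1.succ) := hcon
    rw [hw1', hw1'] at hcon' ⊢
    linear_combination hcon'
  · intro R hR t ht
    have h1 := hwF (rename Fin.succ R) (by
      intro s
      rw [eval_rename]
      have h2 : (fun j => eval (vec g s) (P j)) ∘ Fin.succ = fun j => eval (y s) (Φ j) := by
        funext j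
        exact hPzj j s
      rw [h2]
      have h3 := hyP (bind₁ Φ R) (by
        intro x hx
        rw [eval, eval₂Hom_bind₁]
        exact hR x hx) s
      rw [eval, eval₂Hom_bind₁] at h3
      exact h3) t ht
    rw [eval_rename] at h1
    exact h1

end Pool.Agent.W2helper39.BR
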