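import Pool.Agent.W2helper39.BR.Sys2
import Pool.Agent.W2helper39.BR.Loc2

/-!
Curves given by linear differential equations of bounded order over an arbitrary differential ring
of holomorphic functions.
-/

set_option autoImplicit false

namespace Pool.Agent.W2helper39.BR

open MvPolynomial Metric Set Filter Topology Pool.Agent.TH143

variable {Ω : Set ℂ} {B : Subalgebra ℂ (ℂ → ℂ)}

theorem eval_an {M : ℕ} {f : ℂ → Fin M → ℂ} (hf : ∀ j, AnalyticOnNhd ℂ (fun w => f w j) Ω)
    (Q : MvPolynomial (Fin M) ℂ) : AnalyticOnNhd ℂ (fun w => eval (f w) Q) Ω := by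
  intro w hw
  have : (fun w => eval (f w) Q) = fun w => ∑ α ∈ Q.support, Q.coeff α * ∏ j, f w j ^ α j := by
    funext w
    rw [eval_eq']
  rw [this]
  apply Finset.analyticAt_fun_sum
  intro α _
  apply analyticAt_const.fun_mul
  apply Finset.analyticAt_fun_prod
  intro j _
  exact (hf j w hw).fun_pow _

theorem gen_local2 (hΩ : IsOpen Ω) (hΩc : IsPreconnected Ω) (hB : DiffRing Ω B)
    {M r : ℕ} (f : ℂ → Fin M → ℂ)
    (hf : ∀ j, AnalyticOnNhd ℂ (fun w => f w j) Ω) (hlin : ∀ j, OdeOver Ω B r (fun w => f w j))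
    (Q : MvPolynomial (Fin M) ℂ) (hQ : ∀ z ∈ Ω, eval (f z) Q ≠ 0)
    (hQd : LogDerOver Ω B fun w => eval (f w) Q)
    (j0 j1 : Fin M) (h0 : ∃ z ∈ Ω, f z j0 ≠ 0)
    (h1 : ¬ AlgOver Ω B (fun w => f w j1) (fun w => f w j0)) :
    ∃ z0 ∈ Ω, ∀ᶠ z in 𝓝[≠] z0, ∃ w : ℂ → Fin M → ℂ,
      (∀ j, Few r (fun t => w t j)) ∧ (∀ j, w 1 j = f z j) ∧ (∀ t, t ≠ 0 → eval (w t) Q ≠ 0) ∧
      (∃ t, t ≠ 0 ∧ w t j1 * w 1 j0 ≠ w t j0 * w 1 j1) ∧
      ∀ R : MvPolynomial (Fin M) ℂ, (∀ z ∈ Ω, eval (f z) R = 0) →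
        ∀ t, t ≠ 0 → eval (w t) R = 0 := by
  classical
  choose m l a hmr hlB haB hl0 hnorm using fun j => (hlin j).normal
  obtain ⟨sQ, hsQ, bQ, hbQ, hsQ0, hsQd⟩ := hQd
  -- a nonzero product of analytic functions
  have hmul : ∀ g h : ℂ → ℂ, g ∈ B → h ∈ B → (∃ z ∈ Ω, g z ≠ 0) → (∃ z ∈ Ω, h z ≠ 0) →
      ∃ z ∈ Ω, g z * h z ≠ 0 := by
    intro g h hg hh hg0 hh0
    by_contra hcon
    push Not at hcon
    rcases AnalyticOnNhd.eq_zero_or_eq_zero_of_mul_eq_zero (hB.an _ hg) (hB.an _ hh) hcon hΩc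
      with h1 | h1
    · obtain ⟨z, hz, hz'⟩ := hg0
      exact hz' (h1 z hz)
    · obtain ⟨z, hz, hz'⟩ := hh0
      exact hz' (h1 z hz)
  have hprod : ∀ T : Finset (Fin M), ∃ z ∈ Ω, (∏ j ∈ T, l j z) ≠ 0 := by
    intro T
    induction T using Finset.induction_on with
    | empty =>
      obtain ⟨z, hz, -⟩ := h0
      exact ⟨z, hz, by simp⟩
    | insert j T hj ih =>
      obtain ⟨z, hz, hz'⟩ := hmul (l j) (∏ i ∈ T, l i) (hlB j) (B.prod_mem fun i _ => hlB i)
        (hl0 j) (by
          obtain ⟨z, hz, hz'⟩ := ih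
          exact ⟨z, hz, by rwa [Finset.prod_apply]⟩)
      rw [Finset.prod_apply] at hz'
      exact ⟨z, hz, by rwa [Finset.prod_insert hj]⟩
  let s : ℂ → ℂ := (∏ j, l j) * sQ
  have hs : ∀ z, s z = (∏ j, l j z) * sQ z := fun z => by
    change (∏ j, l j) z * sQ z = _
    rw [Finset.prod_apply]
  have hsB : s ∈ B := B.mul_mem (B.prod_mem fun j _ => hlB j) hsQ
  obtain ⟨z0, hz0, hsz0⟩ := hmul (∏ j, l j) sQ (B.prod_mem fun j _ => hlB j) hsQ (by
    obtain ⟨z, hz, hz'⟩ := hprod Finset.univ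
    exact ⟨z, hz, by rwa [Finset.prod_apply]⟩) hsQ0
  rw [Finset.prod_apply, ← hs] at hsz0
  have hsan := hB.an s hsB
  -- the system
  let num : Fin M → ℕ → ℂ → ℂ := fun j k => a j k * (∏ i ∈ Finset.univ.erase j, l i) * sQ
  have hnumB : ∀ j k, num j k ∈ B := fun j k =>
    B.mul_mem (B.mul_mem (haB j k) (B.prod_mem fun i _ => hlB i)) hsQ
  have hnum : ∀ j k z, s z ≠ 0 → l j z ≠ 0 ∧ num j k z / s z = a j k z / l j z := by
    intro j k z hz
    have h2 : s z = l j z * (∏ i ∈ Finset.univ.erase j, l i z) * sQ z := by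
      rw [hs, Finset.mul_prod_erase _ (fun i => l i z) (Finset.mem_univ j)]
    have h3 : l j z ≠ 0 := fun h => hz (by rw [h2, h, zero_mul, zero_mul])
    have h4 : (∏ i ∈ Finset.univ.erase j, l i z) ≠ 0 := fun h => hz (by
      rw [h2, h, mul_zero, zero_mul])
    have h5 : sQ z ≠ 0 := fun h => hz (by rw [h2, h, mul_zero])
    refine ⟨h3, ?_⟩
    simp only [num, Pi.mul_apply, Finset.prod_apply]
    rw [h2]
    field_simp
  obtain ⟨n, A, y, L, blk, hblk, hAblk, hLblk, hA, hsys⟩ := exists_system2 (fun j w => f w j) m hmr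
    (fun j k z => num j k z / s z)
  set Ω' := {z ∈ Ω | s z ≠ 0} with hΩ'
  have hΩ'o : IsOpen Ω' := by
    rw [isOpen_iff_mem_nhds]
    intro z hz
    filter_upwards [hΩ.mem_nhds hz.1, (hsan z hz.1).continuousAt.eventually_ne hz.2] with w h2 h3
    exact ⟨h2, h3⟩
  have hsys' : ∀ w ∈ Ω', (∀ i, HasDerivAt (fun w => y w i) (∑ k, A i k w * y w k) w) ∧
      ∀ j, f w j = ∑ k, L j k * y w k := by
    intro w hw
    apply hsys w (fun j => hf j w hw.1)
    intro j
    rw [hnorm j w hw.1 (hnum j 0 w hw.2).1]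
    refine Finset.sum_congr rfl fun k _ => ?_
    rw [(hnum j k w hw.2).2]
  have hAB : ∀ i k, ∃ b ∈ B, ∀ z ∈ Ω', A i k z = b z / s z ^ 1 := by
    intro i k
    obtain ⟨α, ε, j, p, -, hp⟩ := hA i k
    refine ⟨algebraMap ℂ (ℂ → ℂ) α * s + algebraMap ℂ (ℂ → ℂ) ε * num j p,
      B.add_mem (B.mul_mem (B.algebraMap_mem α) hsB) (B.mul_mem (B.algebraMap_mem ε) (hnumB j p)),
      fun z hz => ?_⟩
    rw [hp, Pi.add_apply, Pi.mul_apply, Pi.mul_apply]
    have h2 := hz.2
    have h3 : ∀ c : ℂ, (algebraMap ℂ (ℂ → ℂ) c) z = c := fun c => rfl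
    rw [h3, h3]
    field_simp
  choose bA hbA hbAe using hAB
  choose! der hderB hder using hB.der
  have hAan : ∀ i k, AnalyticOnNhd ℂ (fun z => bA i k z / s z ^ 1) Ω' := fun i k z hz =>
    (hB.an _ (hbA i k) z hz.1).fun_div ((hsan z hz.1).fun_pow 1) (pow_ne_zero _ hz.2)
  obtain ⟨ρ, hρ, hρS, U0, hU0, hdet0⟩ := exists_fund hΩ'o
    (fun z => Matrix.of fun i k => bA i k z / s z ^ 1) (fun i k => by
      simpa only [Matrix.of_apply] using hAan i k)
    (show z0 ∈ Ω' from ⟨hz0, hsz0⟩)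
  set S := ball z0 ρ with hS
  have hz0S : z0 ∈ S := mem_ball_self hρ
  have hSo : IsOpen S := isOpen_ball
  have hSc : IsPreconnected S := (convex_ball z0 ρ).isPreconnected
  have hSs : ∀ z ∈ S, s z ≠ 0 := fun z hz => (hρS hz).2
  have hSΩ : S ⊆ Ω := fun z hz => (hρS hz).1
  -- the normalized fundamental matrix
  let U : ℂ → Matrix (Fin n) (Fin n) ℂ := fun z => U0 z * (U0 z0)⁻¹
  have hU1 : U z0 = 1 := Matrix.mul_nonsing_inv _ ((hdet0 z0 hz0S).isUnit)
  have hU : ∀ z ∈ S, ∀ i j, HasDerivAt (fun w => U w i j)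
      (∑ k, bA i k z / s z ^ 1 * U z k j) z := by
    intro z hz i j
    have h2 : HasDerivAt (fun w => ∑ p, U0 w i p * (U0 z0)⁻¹ p j)
        (∑ p, (∑ k, bA i k z / s z ^ 1 * U0 z k p) * (U0 z0)⁻¹ p j) z := by
      apply HasDerivAt.fun_sum
      intro p _
      have h5 := (hU0 z hz i p).mul_const ((U0 z0)⁻¹ p j)
      rw [Matrix.mul_apply] at h5
      exact h5
    have h3 : (fun w => U w i j) = fun w => ∑ p, U0 w i p * (U0 z0)⁻¹ p j := by
      funext w
      exact Matrix.mul_apply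
    rw [h3]
    refine h2.congr_deriv ?_
    have h4 : ∀ k, U z k j = ∑ p, U0 z k p * (U0 z0)⁻¹ p j := fun k => Matrix.mul_apply
    simp only [h4, Finset.sum_mul, Finset.mul_sum]
    rw [Finset.sum_comm]
    refine Finset.sum_congr rfl fun k _ => Finset.sum_congr rfl fun p _ => ?_
    ring
  have hdet : ∀ z ∈ S, (U z).det ≠ 0 := by
    intro z hz
    rw [Matrix.det_mul]
    refine mul_ne_zero (hdet0 z hz) ?_
    rw [Matrix.det_nonsing_inv]
    simpa using hdet0 z0 hz0S
  have hUb : ∀ z ∈ S, ∀ i k, blk i ≠ blk k → U z i k = 0 := by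
    intro z hz i k hik
    have h2 := sol_zero (a := z0) (r := ρ) (fun i k z => bA i k z / s z ^ 1)
      (fun i k => (hAan i k).mono hρS)
      (fun z i => if blk i = blk k then 0 else U z i k) (by
        intro z hz i
        by_cases hi : blk i = blk k
        · simp only [hi, if_true]
          refine (hasDerivAt_const z (0 : ℂ)).congr_deriv ?_
          symm
          apply Finset.sum_eq_zero
          intro p _
          by_cases hp : blk p = blk k
          · rw [if_pos hp, mul_zero]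
          · rw [← hbAe i p z (hρS hz), hAblk i p (fun h => hp (by rw [← h, hi])) z, zero_mul]
        · simp only [hi, if_false]
          refine (hU z hz i k).congr_deriv ?_
          refine Finset.sum_congr rfl fun p _ => ?_
          by_cases hp : blk p = blk k
          · rw [if_pos hp, mul_zero, ← hbAe i p z (hρS hz),
              hAblk i p (fun h => hi (by rw [h, hp])) z, zero_mul]
          · rw [if_neg hp]) (by
        intro i
        by_cases hi : blk i = blk k
        · simp only [hi, if_true]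
        · simp only [hi, if_false]
          rw [hU1]
          exact Matrix.one_apply_ne (fun h => hi (by rw [h])))
    have h3 := h2 z hz i
    rwa [if_neg hik] at h3
  set c : Fin n → ℂ := y z0 with hc
  have hyU : ∀ z ∈ S, ∀ i, y z i = ∑ l, U z i l * c l := by
    have h2 := sol_zero (a := z0) (r := ρ) (fun i k z => bA i k z / s z ^ 1)
      (fun i k => (hAan i k).mono hρS)
      (fun z i => y z i - ∑ l, U z i l * c l) (by
        intro z hz i
        have h3 := (hsys' z (hρS hz)).1 i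
        have h4 : HasDerivAt (fun z => ∑ l, U z i l * c l)
            (∑ l, (∑ k, bA i k z / s z ^ 1 * U z k l) * c l) z := by
          apply HasDerivAt.fun_sum
          intro l _
          exact (hU z hz i l).mul_const (c l)
        refine (h3.fun_sub h4).congr_deriv ?_
        simp only [hbAe _ _ z (hρS hz), mul_sub, Finset.sum_sub_distrib, Finset.sum_mul,
          Finset.mul_sum]
        congr 1
        rw [Finset.sum_comm]
        refine Finset.sum_congr rfl fun k _ => Finset.sum_congr rfl fun l _ => ?_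
        ring) (by
        intro i
        rw [hU1]
        simp [Matrix.one_apply, hc])
    intro z hz i
    exact sub_eq_zero.mp (h2 z hz i)
  -- the coefficients
  let bb : B × ℕ → ℂ → ℂ := fun p z => p.1.1 z / s z ^ p.2
  have hbb : ∀ p, AnalyticOnNhd ℂ (bb p) S := fun p z hz =>
    (hB.an _ p.1.2 z (hSΩ hz)).fun_div ((hsan z (hSΩ hz)).fun_pow _) (pow_ne_zero _ (hSs z hz))
  let dd : B × ℕ → B × ℕ := fun p =>
    (⟨der p.1.1 * s - algebraMap ℂ (ℂ → ℂ) (p.2 : ℂ) * p.1.1 * der s,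
      B.sub_mem (B.mul_mem (hderB _ p.1.2) hsB)
        (B.mul_mem (B.mul_mem (B.algebraMap_mem _) p.1.2) (hderB _ hsB))⟩, p.2 + 1)
  have hdd : ∀ p, ∀ z ∈ S, HasDerivAt (bb p) (bb (dd p) z) z := by
    rintro ⟨b, k⟩ z hz
    have h2 := hder b.1 b.2 z (hSΩ hz)
    have h3 := hder s hsB z (hSΩ hz)
    have h4 := hSs z hz
    refine (h2.fun_div (h3.fun_pow k) (pow_ne_zero k h4)).congr_deriv ?_
    have h5 : ∀ c : ℂ, (algebraMap ℂ (ℂ → ℂ) c) z = c := fun c => rfl
    simp only [bb, dd, Pi.sub_apply, Pi.mul_apply, h5]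
    cases k with
    | zero => simp; field_simp
    | succ k =>
      rw [Nat.add_sub_cancel]
      field_simp
      ring
  let Lc : Fin M → Fin n → B × ℕ := fun j k =>
    (⟨algebraMap ℂ (ℂ → ℂ) (L j k), B.algebraMap_mem _⟩, 0)
  have hLc : ∀ j k z, bb (Lc j k) z = L j k := by
    intro j k z
    have h5 : (algebraMap ℂ (ℂ → ℂ) (L j k)) z = L j k := rfl
    simp only [bb, Lc, h5, pow_zero, div_one]
  have hΦ : ∀ z ∈ S, ∀ j, eval (vv bb U z) (phi Lc c j) = f z j := by
    intro z hz j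
    rw [(hsys' z (hρS hz)).2 j, eval_phi]
    refine Finset.sum_congr rfl fun k _ => ?_
    rw [hyU z hz k, Finset.mul_sum]
    refine Finset.sum_congr rfl fun l _ => ?_
    simp only [vv, Sum.elim_inl, Sum.elim_inr, hLc]
    ring
  have hFS : ∀ z ∈ S, (fun j => eval (vv bb U z) (phi Lc c j)) = f z := fun z hz => funext (hΦ z hz)
  refine ⟨z0, hz0, ?_⟩
  have hsQS : ∀ z ∈ S, sQ z ≠ 0 := by
    intro z hz h
    apply hSs z hz
    rw [hs, h, mul_zero]
  have key := local_curve2 hSo hSc ⟨z0, hz0S⟩ bb hbb dd hdd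
    (fun i k => (⟨bA i k, hbA i k⟩, 1)) U hU hdet blk hblk hUb (locAlg B s hsB S hSs)
    (fun p => ⟨p.1.1, p.1.2, p.2, fun z => rfl⟩) Lc
    (fun j k hk z _ => by rw [hLc, hLblk j k hk]) c j0 j1
    (by
      by_contra hcon
      push Not at hcon
      have h2 : ∀ z ∈ S, f z j0 = 0 := fun z hz => by rw [← hΦ z hz]; exact hcon z hz
      have h3 : (fun w => f w j0) =ᶠ[𝓝 z0] 0 := by
        filter_upwards [hSo.mem_nhds hz0S] with z hz
        exact h2 z hz
      have h4 := (hf j0).eqOn_zero_of_preconnected_of_eventuallyEq_zero hΩc hz0 h3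
      obtain ⟨z, hz, hz'⟩ := h0
      exact hz' (h4 hz))
    (by
      intro m cc hcc
      choose bk hbkB kk hbk using fun k => (cc k).2
      let K := ∑ k ∈ Finset.range (m + 1), kk k
      have hkK : ∀ k ∈ Finset.range (m + 1), kk k ≤ K := fun k hk =>
        Finset.single_le_sum (f := kk) (fun _ _ => Nat.zero_le _) hk
      let c' : ℕ → ℂ → ℂ := fun k => bk k * s ^ (K - kk k)
      have hc'B : ∀ k, c' k ∈ B := fun k => B.mul_mem (hbkB k) (B.pow_mem hsB _)
      have hsubk : ∀ k, AnalyticOnNhd ℂ (c' k) Ω := fun k => hB.an _ (hc'B k)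
      have h2 : ∀ z ∈ S, ∑ k ∈ Finset.range (m + 1),
          c' k z * f z j1 ^ k * f z j0 ^ (m - k) = 0 := by
        intro z hz
        have h3 := congrArg (fun x => s z ^ K * x) (hcc ⟨z, hz⟩)
        simp only [mul_zero] at h3
        rw [← h3, Finset.mul_sum]
        refine Finset.sum_congr rfl fun k hk => ?_
        rw [hbk k ⟨z, hz⟩, hΦ z hz, hΦ z hz]
        have h4 := hSs z hz
        simp only [c', Pi.mul_apply, Pi.pow_apply]
        have h5 : s z ^ K = s z ^ (K - kk k) * s z ^ (kk k) := by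
          rw [← pow_add, Nat.sub_add_cancel (hkK k hk)]
        rw [h5]
        field_simp
      have h3 : AnalyticOnNhd ℂ (fun z => ∑ k ∈ Finset.range (m + 1),
          c' k z * f z j1 ^ k * f z j0 ^ (m - k)) Ω := by
        intro z hz
        apply Finset.analyticAt_fun_sum
        intro k _
        exact ((hsubk k z hz).fun_mul ((hf j1 z hz).fun_pow k)).fun_mul
          ((hf j0 z hz).fun_pow _)
      have h4 := h3.eqOn_zero_of_preconnected_of_eventuallyEq_zero hΩc hz0 (by
        filter_upwards [hSo.mem_nhds hz0S] with z hz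
        exact h2 z hz)
      have h5 : ∀ k ≤ m, ∀ z ∈ Ω, c' k z = 0 := by
        intro k hk z hz
        by_contra hnz
        exact h1 ⟨m, c', hc'B, ⟨k, hk, z, hz, hnz⟩, fun z hz => h4 hz⟩
      intro k hk
      apply Subtype.ext
      apply hol_ext
      intro z
      rw [hbk k z]
      have h6 := h5 k hk z (hSΩ z.2)
      have h7 := (mul_eq_zero.mp h6).resolve_right (pow_ne_zero _ (hSs z z.2))
      rw [h7, zero_div]
      rfl)
    Q (⟨bQ * (∏ j, l j), B.mul_mem hbQ (B.prod_mem fun j _ => hlB j)⟩, 1)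
    (fun z hz => by
      rw [hFS z hz]
      exact hQ z (hSΩ hz))
    (fun z hz => by
      rw [hFS z hz]
      have h2 : HasDerivAt (fun w => eval (f w) Q) (deriv (fun w => eval (f w) Q) z) z :=
        ((eval_an hf Q) z (hSΩ hz)).differentiableAt.hasDerivAt
      have h3 : deriv (fun w => eval (f w) Q) z =
          bb (⟨bQ * (∏ j, l j), B.mul_mem hbQ (B.prod_mem fun j _ => hlB j)⟩, 1) z *
            eval (f z) Q := by
        have h4 := hsQd z (hSΩ hz)
        have h5 := hsQS z hz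
        have h6 := hSs z hz
        simp only [bb, pow_one, Pi.mul_apply, Finset.prod_apply]
        rw [div_mul_eq_mul_div, eq_div_iff h6, hs]
        linear_combination (∏ j, l j z) * h4
      rw [← h3]
      refine h2.congr_of_eventuallyEq ?_
      filter_upwards [hSo.mem_nhds hz] with x hx
      rw [hFS x hx]) z0 hz0S
  filter_upwards [key, mem_nhdsWithin_of_mem_nhds (hSo.mem_nhds hz0S)] with z hz hzS
  obtain ⟨w, hw1, hw2, hw3, hw4, hw5⟩ := hz
  refine ⟨w, hw1, fun j => by rw [hw2, hΦ z hzS], hw3, hw4, fun R hR => hw5 R ?_⟩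
  intro x hx
  rw [hFS x hx]
  exact hR x (hSΩ hx)

end Pool.Agent.W2helper39.BR
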