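import Pool.Agent.W2helper39.BR.Eng2
import Pool.Agent.W2helper39.BR.Gen2

/-!
Curves given by linear differential equations of bounded order: the exceptional hypersurface.
-/

set_option autoImplicit false

namespace Pool.Agent.W2helper39.BR

open FF MvPolynomial Pool.Agent.W603.LV
open Pool.Agent.Results.MP_70ba79_ag.SparseCurves
open Filter Topology Pool.Agent.TH143

/-- All maps from the multiplicative group to `G = 0`, `Q ≠ 0`, whose coordinates are sums of `r`
powers, lie in `Φ = 0`; the coordinates may have common zeros if `Q` is constant. -/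
def GmQ {M : ℕ} {ι : Type} (r : ℕ) (G : ι → MvPolynomial (Fin M) ℂ)
    (Q Φ : MvPolynomial (Fin M) ℂ) : Prop :=
  ∀ w : ℂ → Fin M → ℂ, (∀ j, Few r fun t => w t j) → w 1 ≠ 0 →
    (∀ i t, t ≠ 0 → eval (w t) (G i) = 0) → (∀ t, t ≠ 0 → eval (w t) Q ≠ 0) →
    (∃ t j1 j0, t ≠ 0 ∧ w t j1 * w 1 j0 ≠ w t j0 * w 1 j1) → eval (w 1) Φ = 0

theorem poly_zero {p : Polynomial ℂ} (h : ∀ t : ℂ, t ≠ 0 → p.eval t = 0) : p = 0 := by
  apply Polynomial.eq_zero_of_infinite_isRoot
  refine Set.Infinite.mono (s := {t : ℂ | t ≠ 0}) (fun t ht => h t ht) ?_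
  exact (Set.finite_singleton (0 : ℂ)).infinite_compl

theorem ev_hom {M : ℕ} {H : MvPolynomial (Fin M) ℂ} {m : ℕ} (hH : H.IsHomogeneous m) (a : ℂ)
    (z : Fin M → ℂ) : eval (fun c => a * z c) H = a ^ m * eval z H := by
  have := form_hom (R := ℂ) hH a z
  simpa [aeval_eq_eval] using this

theorem eval_aeval {M : ℕ} (W : Fin M → Polynomial ℂ) (F : MvPolynomial (Fin M) ℂ) (t : ℂ) :
    (aeval W F).eval t = eval (fun c => (W c).eval t) F := by
  have h13 := MvPolynomial.comp_aeval_apply (f := W)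
    (Polynomial.aeval (t : ℂ) : Polynomial ℂ →ₐ[ℂ] ℂ) F
  simp only [Polynomial.coe_aeval_eq_eval, aeval_eq_eval] at h13
  exact h13

/-- The varieties of log general type. -/
theorem gmQ_of {n g q w r : ℕ} {G : Fin g → MvPolynomial (Fin n) ℂ}
    {E : Fin q → Fin w → MvPolynomial (Fin n) ℂ} {d : Fin q → Fin w → ℕ} {eG : Fin g → ℕ}
    (hGh : ∀ j, (G j).IsHomogeneous (eG j)) (hE : ∀ i j, (E i j).IsHomogeneous (d i j))
    (Q : MvPolynomial (Fin n) ℂ) {δ : ℕ} (hQh : Q.IsHomogeneous δ)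
    (hQ : ∀ z : Fin n → ℂ, z ≠ 0 → OnX G z → aeval z Q ≠ 0 → ∀ i, ∃ j, aeval z (E i j) ≠ 0)
    (Φ : MvPolynomial (Fin n) ℂ) (B : ℝ)
    (hΦ : ∀ (L : Type) [Field L] [Algebra ℂ L] [IsFF ℂ L] (S : Finset (Place ℂ L))
        (x : Fin n → L) (t : Fin n → Fin r → L), OnX G x →
        NonConstant ℂ x → (∀ i, ∃ j, aeval x (E i j) ≠ 0) →
        (∀ P : Place ℂ L, P ∉ S → ∀ i, localHeight (E i) (d i) P x ≤ 0) → aeval x Φ ≠ 0 →
        (∀ c, x c = ∑ j, t c j) → (∀ P ∈ unequal ℂ t, P ∈ S) →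
          (height ℂ x : ℝ) ≤ B * ((canDeg ℂ L + S.card) + 2)) :
    GmQ r G Q Φ := by
  classical
  intro w hw hw1 hwG hwQ ⟨t1, j1, j0, ht1, hnc⟩
  choose a β hw' using hw
  have hw : ∀ j t, t ≠ 0 → w t j = ∑ p, a j p * t ^ β j p := hw'
  let K : ℕ := ∑ j, ∑ p, (β j p).natAbs
  have hK : ∀ j p, 0 ≤ β j p + K := by
    intro j p
    have h1 : (β j p).natAbs ≤ K :=
      (Finset.single_le_sum (f := fun p => (β j p).natAbs) (fun _ _ => Nat.zero_le _)
        (Finset.mem_univ p)).trans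
      (Finset.single_le_sum (f := fun j => ∑ p, (β j p).natAbs) (fun _ _ => Nat.zero_le _)
        (Finset.mem_univ j))
    omega
  let b : Fin n → Fin r → ℕ := fun j p => (β j p + K).toNat
  let W : Fin n → Polynomial ℂ := fun j =>
    ∑ p, Polynomial.C (a j p) * Polynomial.X ^ b j p
  have hWe : ∀ j t, t ≠ 0 → (W j).eval t = t ^ K * w t j := by
    intro j t ht
    rw [hw j t ht, Finset.mul_sum]
    simp only [W, Polynomial.eval_finsetSum, Polynomial.eval_mul, Polynomial.eval_C,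
      Polynomial.eval_pow, Polynomial.eval_X]
    refine Finset.sum_congr rfl fun p _ => ?_
    have h1 : t ^ b j p = t ^ K * t ^ β j p := by
      rw [← zpow_natCast, ← zpow_natCast, ← zpow_add₀ ht]
      congr 1
      have := Int.toNat_of_nonneg (hK j p)
      simp only [b]
      omega
    rw [h1]
    ring
  have hWf : ∀ t, t ≠ 0 → (fun j => (W j).eval t) = fun j => t ^ K * w t j := fun t ht =>
    funext fun j => hWe j t ht
  have hWG : ∀ i, aeval W (G i) = 0 := by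
    intro i
    apply poly_zero
    intro t ht
    rw [eval_aeval, hWf t ht, ev_hom (hGh i), hwG i t ht, mul_zero]
  have hWQ : ∀ t : ℂ, t ≠ 0 → (aeval W Q).eval t ≠ 0 := by
    intro t ht
    rw [eval_aeval, hWf t ht, ev_hom hQh]
    exact mul_ne_zero (pow_ne_zero _ (pow_ne_zero _ ht)) (hwQ t ht)
  have hW1 : (fun j => (W j).eval 1) = w 1 := by
    rw [hWf 1 one_ne_zero]
    funext j
    rw [one_pow, one_mul]
  have hres : aeval W Φ = 0 := by
    refine eng2 Φ B hΦ W a b (fun c => rfl) hE hWG ?_ j1 j0 ?_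
    · intro τ μ V hτ hV hV0 i
      have hWV : W = fun c => (Polynomial.X - Polynomial.C τ) ^ μ * V c := funext hV
      have hX : (Polynomial.X - Polynomial.C τ : Polynomial ℂ) ≠ 0 :=
        Polynomial.X_sub_C_ne_zero τ
      have h1 : ∀ k, aeval V (G k) = 0 := by
        intro k
        have h2 := hWG k
        rw [hWV, form_hom (hGh k)] at h2
        exact (mul_eq_zero.mp h2).resolve_left (pow_ne_zero _ (pow_ne_zero _ hX))
      have h2 : (aeval V Q).eval τ ≠ 0 := by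
        intro h0
        apply hWQ τ hτ
        rw [hWV, form_hom hQh, Polynomial.eval_mul, h0, mul_zero]
      obtain ⟨j, hj⟩ := hQ (fun c => (V c).eval τ) (by
        obtain ⟨c, hc⟩ := hV0
        exact fun h => hc (congrFun h c)) (fun k => by
        rw [aeval_eq_eval]
        change eval (fun c => (V c).eval τ) (G k) = 0
        rw [← eval_aeval, h1, Polynomial.eval_zero]) (by
        rw [aeval_eq_eval]
        change eval (fun c => (V c).eval τ) Q ≠ 0
        rw [← eval_aeval]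
        exact h2) i
      refine ⟨j, ?_⟩
      rw [eval_aeval]
      rw [aeval_eq_eval] at hj
      exact hj
    · intro h0
      apply hnc
      have h2 := congrArg (Polynomial.eval t1) h0
      simp only [Polynomial.eval_mul, Polynomial.eval_C] at h2
      rw [hWe _ _ ht1, hWe _ _ ht1, hWe _ _ one_ne_zero, hWe _ _ one_ne_zero, one_pow, one_mul,
        one_mul] at h2
      have h3 : t1 ^ K ≠ 0 := pow_ne_zero _ ht1
      apply mul_left_cancel₀ h3
      linear_combination h2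
  have h2 := congrArg (Polynomial.eval 1) hres
  rw [eval_aeval, hW1, Polynomial.eval_zero] at h2
  exact h2

/-- **Arbitrary domains and differential rings.** -/
theorem dom_main {Ω : Set ℂ} {B : Subalgebra ℂ (ℂ → ℂ)} (hΩ : IsOpen Ω) (hΩc : IsPreconnected Ω)
    (hB : DiffRing Ω B) {M r : ℕ} (f : ℂ → Fin M → ℂ)
    (hf : ∀ j, AnalyticOnNhd ℂ (fun w => f w j) Ω) (hne : ∀ z ∈ Ω, f z ≠ 0)
    (hlin : ∀ j, OdeOver Ω B r (fun w => f w j))
    {ι : Type} (G : ι → MvPolynomial (Fin M) ℂ) (hG : ∀ z ∈ Ω, ∀ i, eval (f z) (G i) = 0)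
    (Q : MvPolynomial (Fin M) ℂ) (hQ : ∀ z ∈ Ω, eval (f z) Q ≠ 0)
    (hQd : LogDerOver Ω B fun w => eval (f w) Q)
    (Φ : MvPolynomial (Fin M) ℂ) (hΦ : GmQ r G Q Φ) :
    (∀ j1 j0, (∃ z ∈ Ω, f z j0 ≠ 0) → AlgOver Ω B (fun w => f w j1) (fun w => f w j0)) ∨
      ∀ z ∈ Ω, eval (f z) Φ = 0 := by
  by_cases hcon : ∀ j1 j0, (∃ z ∈ Ω, f z j0 ≠ 0) →
      AlgOver Ω B (fun w => f w j1) (fun w => f w j0)
  · exact Or.inl hcon
  right
  push Not at hcon
  obtain ⟨j1, j0, h0, h1⟩ := hcon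
  obtain ⟨z0, hz0, h⟩ := gen_local2 hΩ hΩc hB f hf hlin Q hQ hQd j0 j1 h0 h1
  have han : AnalyticOnNhd ℂ (fun w => eval (f w) Φ) Ω := eval_an hf Φ
  have hev : ∀ᶠ z in 𝓝[≠] z0, eval (f z) Φ = 0 := by
    filter_upwards [h, mem_nhdsWithin_of_mem_nhds (hΩ.mem_nhds hz0)] with z hz hzΩ
    obtain ⟨w, hw1, hw2, hw3, ⟨t, ht, hnc⟩, hw5⟩ := hz
    have hw2' : w 1 = f z := funext hw2
    have h2 := hΦ w hw1 (by rw [hw2']; exact hne z hzΩ)
      (fun i t ht => hw5 (G i) (fun x hx => hG x hx i) t ht) hw3 ⟨t, j1, j0, ht, hnc⟩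
    rwa [hw2'] at h2
  rcases (han z0 hz0).eventually_eq_zero_or_eventually_ne_zero with h2 | h2
  · exact fun z hz => han.eqOn_zero_of_preconnected_of_eventuallyEq_zero hΩc hz0 h2 hz
  · exfalso
    obtain ⟨z, h3, h4⟩ := (hev.and h2).exists
    exact h4 h3

end Pool.Agent.W2helper39.BR
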