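import Mathlib

/-!
Linear differential equations of bounded order: the definitions.
-/

set_option autoImplicit false

namespace Pool.Agent.W2helper39.BR

open Filter Topology

/-- `g` satisfies on `Ω` a nontrivial homogeneous linear differential equation of order at most `r`
with coefficients in `B`. -/
def OdeOver (Ω : Set ℂ) (B : Subalgebra ℂ (ℂ → ℂ)) (r : ℕ) (g : ℂ → ℂ) : Prop :=
  ∃ a : ℕ → ℂ → ℂ, (∀ k, a k ∈ B) ∧ (∃ k ≤ r, ∃ z ∈ Ω, a k z ≠ 0) ∧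
    ∀ z ∈ Ω, ∑ k ∈ Finset.range (r + 1), a k z * iteratedDeriv k g z = 0

/-- The logarithmic derivative of `g` is a quotient of elements of `B`. -/
def LogDerOver (Ω : Set ℂ) (B : Subalgebra ℂ (ℂ → ℂ)) (g : ℂ → ℂ) : Prop :=
  ∃ s ∈ B, ∃ b ∈ B, (∃ z ∈ Ω, s z ≠ 0) ∧ ∀ z ∈ Ω, s z * deriv g z = b z * g z

/-- `g` satisfies near the origin a nontrivial homogeneous linear differential equation of order at
most `r` with coefficients meromorphic at the origin. -/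
def OdeAt (r : ℕ) (g : ℂ → ℂ) : Prop :=
  ∃ a : ℕ → ℂ → ℂ, (∀ k, MeromorphicAt (a k) 0) ∧
    (∃ k ≤ r, ¬ ∀ᶠ w in 𝓝[≠] (0 : ℂ), a k w = 0) ∧
    ∀ᶠ w in 𝓝[≠] (0 : ℂ), ∑ k ∈ Finset.range (r + 1), a k w * iteratedDeriv k g w = 0

/-- `g` satisfies near infinity a nontrivial homogeneous linear differential equation of order at
most `r` with coefficients meromorphic at infinity (for instance, with polynomial coefficients). -/
def OdeInf (r : ℕ) (g : ℂ → ℂ) : Prop :=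
  ∃ a : ℕ → ℂ → ℂ, (∀ k, MeromorphicAt (fun w => a k w⁻¹) 0) ∧
    (∃ k ≤ r, ¬ ∀ᶠ w in 𝓝[≠] (0 : ℂ), a k w⁻¹ = 0) ∧
    ∀ᶠ w in 𝓝[≠] (0 : ℂ), ∑ k ∈ Finset.range (r + 1), a k w⁻¹ * iteratedDeriv k g w⁻¹ = 0

end Pool.Agent.W2helper39.BR
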