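import Pool.Agent.W2helper39.SB.Eng
import Pool.Agent.W2helper39.BR.Loc2

/-!
Maps of the multiplicative group with few terms, whose coordinates may have common zeros, lie in the
exceptional hypersurface.
-/

set_option autoImplicit false

namespace Pool.Agent.W2helper39.BR

open FF MvPolynomial Pool.Agent.W603.LV Pool.Agent.Q72.NA Pool.Agent.W603.PV
open Pool.Agent.Results.MP_70ba79_ag.SparseCurves
open Pool.Agent.W2helper39.SB
open scoped IntermediateField

/-- homogeneity -/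
theorem form_hom {R : Type} [CommRing R] [Algebra ℂ R] {M : ℕ} {H : MvPolynomial (Fin M) ℂ} {m : ℕ}
    (hH : H.IsHomogeneous m) (a : R) (z : Fin M → R) :
    aeval (fun c => a * z c) H = a ^ m * aeval z H := by
  rw [aeval_def, aeval_def, eval₂_eq', eval₂_eq', Finset.mul_sum]
  refine Finset.sum_congr rfl fun α hα => ?_
  have h2 : ∑ c, α c = m := by
    have := hH (mem_support_iff.1 hα)
    rw [← this, Finsupp.weight_apply, Finsupp.sum_fintype _ _ (by simp)]
    simp
  have h3 : ∏ c, (a * z c) ^ α c = a ^ m * ∏ c, z c ^ α c := by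
    rw [← h2, ← Finset.prod_pow_eq_pow_sum, ← Finset.prod_mul_distrib]
    exact Finset.prod_congr rfl fun c _ => mul_pow _ _ _
  rw [h3]
  ring

/-- the common zero at a point is removed -/
theorem exists_fac {n : ℕ} (W : Fin n → Polynomial ℂ) (hW : ∃ c, W c ≠ 0) (τ : ℂ) :
    ∃ (μ : ℕ) (V : Fin n → Polynomial ℂ),
      (∀ c, W c = (Polynomial.X - Polynomial.C τ) ^ μ * V c) ∧ ∃ c, (V c).eval τ ≠ 0 := by
  classical
  have hex : ∃ k : ℕ, ∃ c, W c ≠ 0 ∧ (W c).rootMultiplicity τ = k := by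
    obtain ⟨c, hc⟩ := hW
    exact ⟨_, c, hc, rfl⟩
  set μ := Nat.find hex with hμ
  obtain ⟨c0, hc0, hc0μ⟩ := Nat.find_spec hex
  have hdvd : ∀ c, (Polynomial.X - Polynomial.C τ) ^ μ ∣ W c := by
    intro c
    by_cases hc : W c = 0
    · rw [hc]
      exact dvd_zero _
    · rw [← Polynomial.le_rootMultiplicity_iff hc]
      exact Nat.find_min' hex ⟨c, hc, rfl⟩
  choose V hV using hdvd
  refine ⟨μ, V, hV, c0, fun h0 => ?_⟩
  obtain ⟨q, hq⟩ := Polynomial.dvd_iff_isRoot.mpr h0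
  have h1 : (Polynomial.X - Polynomial.C τ) ^ (μ + 1) ∣ W c0 := ⟨q, by
    rw [hV c0, hq]
    ring⟩
  rw [← Polynomial.le_rootMultiplicity_iff hc0] at h1
  have h2 : (W c0).rootMultiplicity τ = μ := hc0μ
  omega

/-- **Maps of the multiplicative group with few terms**, the coordinates may have common zeros. -/
theorem eng2 {n g q w m : ℕ} {G : Fin g → MvPolynomial (Fin n) ℂ}
    {E : Fin q → Fin w → MvPolynomial (Fin n) ℂ} {d : Fin q → Fin w → ℕ}
    (Φ : MvPolynomial (Fin n) ℂ) (B : ℝ)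
    (hΦ : ∀ (L : Type) [Field L] [Algebra ℂ L] [IsFF ℂ L] (S : Finset (Place ℂ L))
        (x : Fin n → L) (t : Fin n → Fin m → L), OnX G x →
        NonConstant ℂ x → (∀ i, ∃ j, aeval x (E i j) ≠ 0) →
        (∀ P : Place ℂ L, P ∉ S → ∀ i, localHeight (E i) (d i) P x ≤ 0) → aeval x Φ ≠ 0 →
        (∀ c, x c = ∑ j, t c j) → (∀ P ∈ unequal ℂ t, P ∈ S) →
          (height ℂ x : ℝ) ≤ B * ((canDeg ℂ L + S.card) + 2))
    (W : Fin n → Polynomial ℂ) (a : Fin n → Fin m → ℂ) (b : Fin n → Fin m → ℕ)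
    (hW : ∀ c, W c = ∑ j, Polynomial.C (a c j) * Polynomial.X ^ b c j)
    (hE : ∀ i j, (E i j).IsHomogeneous (d i j))
    (hG : ∀ j, aeval W (G j) = 0)
    (hav : ∀ (τ : ℂ) (μ : ℕ) (V : Fin n → Polynomial ℂ), τ ≠ 0 →
      (∀ c, W c = (Polynomial.X - Polynomial.C τ) ^ μ * V c) → (∃ c, (V c).eval τ ≠ 0) →
        ∀ i, ∃ j, (aeval V (E i j)).eval τ ≠ 0)
    (c1 c0 : Fin n)
    (hnc : W c1 * Polynomial.C ((W c0).eval 1) ≠ W c0 * Polynomial.C ((W c1).eval 1)) :
    aeval W Φ = 0 := by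
  classical
  by_contra hWΦ
  obtain ⟨M, hM⟩ := exists_nat_gt (B * ((canDeg ℂ (RatFunc ℂ) + (zeroInf).card) + 2))
  obtain ⟨σ, hσX, hσh⟩ := exists_pow (M + 1) (Nat.succ_pos M)
  set Y : RatFunc ℂ := RatFunc.X ^ (M + 1) with hY
  have hX0 : (RatFunc.X : RatFunc ℂ) ≠ 0 := RatFunc.X_ne_zero
  have hY0 : Y ≠ 0 := pow_ne_zero _ hX0
  have hψ : ∀ p : Polynomial ℂ, σ (algebraMap (Polynomial ℂ) (RatFunc ℂ) p) =
      Polynomial.aeval Y p := by
    intro p
    have h1 : (σ.comp (Algebra.algHom ℂ (Polynomial ℂ) (RatFunc ℂ))) =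
        (Polynomial.aeval Y : Polynomial ℂ →ₐ[ℂ] RatFunc ℂ) := by
      apply Polynomial.algHom_ext
      rw [AlgHom.comp_apply, Polynomial.aeval_X]
      change σ (algebraMap (Polynomial ℂ) (RatFunc ℂ) Polynomial.X) = Y
      rw [RatFunc.algebraMap_X, hσX]
    exact congrArg (fun φ : Polynomial ℂ →ₐ[ℂ] RatFunc ℂ => φ p) h1
  have hinj : ∀ p : Polynomial ℂ, Polynomial.aeval Y p = 0 → p = 0 := by
    intro p hp
    rw [← hψ] at hp
    have h1 := (map_eq_zero_iff σ σ.injective).1 hp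
    exact (map_eq_zero_iff _ (IsFractionRing.injective (Polynomial ℂ) (RatFunc ℂ))).1 h1
  let x : Fin n → RatFunc ℂ := fun c => Polynomial.aeval Y (W c)
  have hxp : ∀ F : MvPolynomial (Fin n) ℂ, aeval x F = Polynomial.aeval Y (aeval W F) := by
    intro F
    exact (MvPolynomial.comp_aeval_apply (f := W)
      (Polynomial.aeval Y : Polynomial ℂ →ₐ[ℂ] RatFunc ℂ) F).symm
  let t : Fin n → Fin m → RatFunc ℂ := fun c j => algebraMap ℂ (RatFunc ℂ) (a c j) * Y ^ b c j
  -- the places outside zero and infinity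
  have hpl : ∀ P : Place ℂ (RatFunc ℂ), P ∉ zeroInf → P.ord Y = 0 ∧
      ∃ c : ℂ, c ≠ 0 ∧ Ge P 1 (Y - algebraMap ℂ (RatFunc ℂ) c) := by
    intro P hP
    have h1 : P.ord Y = 0 := by rw [hY, P.ord_pow, not_mem_zeroInf hP, mul_zero]
    refine ⟨h1, ?_⟩
    obtain ⟨c, hc⟩ := exists_const P (f := Y) (Or.inr h1.ge)
    refine ⟨c, ?_, hc⟩
    rintro rfl
    rw [map_zero, sub_zero] at hc
    rcases hc with h2 | h2
    · exact hY0 h2
    · omega
  have hval : ∀ (P : Place ℂ (RatFunc ℂ)) (c : ℂ), P.ord Y = 0 →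
      Ge P 1 (Y - algebraMap ℂ (RatFunc ℂ) c) → ∀ p : Polynomial ℂ, p.eval c ≠ 0 →
        Polynomial.aeval Y p ≠ 0 ∧ P.ord (Polynomial.aeval Y p) = 0 := by
    intro P c h1 h2 p hp
    have h3 := ge_poly (Or.inr h1.ge) h2 p
    have h4 : Polynomial.aeval Y p ≠ 0 := by
      intro h0
      apply hp
      apply const_zero P
      rw [h0, zero_sub] at h3
      have := h3.neg
      rwa [neg_neg] at this
    refine ⟨h4, ?_⟩
    have h5 : Ge P 0 (Polynomial.aeval Y p) := Pool.Agent.TH143.LG.ge_aeval (Or.inr h1.ge) p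
    have h6 := h5.resolve_left h4
    by_contra h7
    apply hp
    apply const_zero P
    have h8 : Ge P 1 (Polynomial.aeval Y p) := Or.inr (by omega)
    have h9 := h8.sub h3
    rwa [sub_sub_cancel] at h9
  -- the point is not constant
  have hW1 : W c1 ≠ 0 := by
    intro h0
    apply hnc
    rw [h0]
    simp
  have hW0 : W c0 ≠ 0 := by
    intro h0
    apply hnc
    rw [h0]
    simp
  have hprop : ∀ z1 z0 : ℂ, (z1 ≠ 0 ∨ z0 ≠ 0) →
      W c1 * Polynomial.C z0 = W c0 * Polynomial.C z1 → False := by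
    intro z1 z0 hz h1
    apply hnc
    have h2 := congrArg (Polynomial.eval 1) h1
    simp only [Polynomial.eval_mul, Polynomial.eval_C] at h2
    rcases hz with hz | hz
    · have h3 : Polynomial.C z1 ≠ 0 := by simpa using hz
      apply mul_right_cancel₀ h3
      have h4 : Polynomial.C ((W c1).eval 1) * Polynomial.C z0 =
          Polynomial.C ((W c0).eval 1) * Polynomial.C z1 := by
        rw [← Polynomial.C_mul, ← Polynomial.C_mul, h2]
      linear_combination Polynomial.C ((W c1).eval 1) * h1 - W c1 * h4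
    · have h3 : Polynomial.C z0 ≠ 0 := by simpa using hz
      apply mul_right_cancel₀ h3
      have h4 : Polynomial.C ((W c1).eval 1) * Polynomial.C z0 =
          Polynomial.C ((W c0).eval 1) * Polynomial.C z1 := by
        rw [← Polynomial.C_mul, ← Polynomial.C_mul, h2]
      linear_combination Polynomial.C ((W c0).eval 1) * h1 - W c0 * h4
  have hx1 : x c1 ≠ 0 := fun h0 => hW1 (hinj _ h0)
  have hx0 : x c0 ≠ 0 := fun h0 => hW0 (hinj _ h0)
  have hconst : NonConstant ℂ x := by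
    rintro ⟨z, a', hz⟩
    have ha' : a' ≠ 0 := by
      rintro rfl
      exact hx1 (by rw [hz, mul_zero])
    refine hprop (z c1) (z c0) (Or.inl ?_) ?_
    · intro h0
      exact hx1 (by rw [hz, h0, map_zero, zero_mul])
    · have h1 : Polynomial.aeval Y (W c1 * Polynomial.C (z c0) - W c0 * Polynomial.C (z c1)) =
          0 := by
        rw [map_sub, map_mul, map_mul, Polynomial.aeval_C, Polynomial.aeval_C]
        have e1 : Polynomial.aeval Y (W c1) = algebraMap ℂ (RatFunc ℂ) (z c1) * a' := hz c1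
        have e0 : Polynomial.aeval Y (W c0) = algebraMap ℂ (RatFunc ℂ) (z c0) * a' := hz c0
        rw [e1, e0]
        ring
      exact sub_eq_zero.mp (hinj _ h1)
  have hht : height ℂ x ≤ B * ((canDeg ℂ (RatFunc ℂ) + (zeroInf).card) + 2) := by
    refine hΦ (RatFunc ℂ) zeroInf x t ?_ hconst ?_ ?_ ?_ ?_ ?_
    · intro j
      rw [hxp, hG, map_zero]
    · intro i
      obtain ⟨μ, V, hV, hV0⟩ := exists_fac W ⟨c1, hW1⟩ 1
      obtain ⟨j, hj⟩ := hav 1 μ V one_ne_zero hV hV0 i
      refine ⟨j, fun h0 => hj ?_⟩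
      rw [hxp] at h0
      have h1 : W = fun c => (Polynomial.X - Polynomial.C 1) ^ μ * V c := funext hV
      have h2 := hinj _ h0
      rw [h1, form_hom (hE i j)] at h2
      have h3 := (mul_eq_zero.mp h2).resolve_left
        (pow_ne_zero _ (pow_ne_zero _ (Polynomial.X_sub_C_ne_zero 1)))
      rw [h3, Polynomial.eval_zero]
    · intro P hP i
      obtain ⟨h1, c, hc, h2⟩ := hpl P hP
      obtain ⟨μ, V, hV, c', hc'⟩ := exists_fac W ⟨c1, hW1⟩ c
      obtain ⟨h3, h4⟩ := hval P c h1 h2 _ hc'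
      let x' : Fin n → RatFunc ℂ := fun c => Polynomial.aeval Y (V c)
      set π : RatFunc ℂ := Y - algebraMap ℂ (RatFunc ℂ) c with hπ
      have hπ0 : π ≠ 0 := by
        intro h0
        have h5 : Polynomial.aeval Y (Polynomial.X - Polynomial.C c) = 0 := by
          rw [map_sub, Polynomial.aeval_X, Polynomial.aeval_C]
          exact h0
        exact Polynomial.X_sub_C_ne_zero c (hinj _ h5)
      have hxx : x = fun c => π ^ μ * x' c := by
        funext c''
        change Polynomial.aeval Y (W c'') = π ^ μ * Polynomial.aeval Y (V c'')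
        rw [hV, map_mul, map_pow, map_sub, Polynomial.aeval_X, Polynomial.aeval_C]
      have hmin : Pool.Agent.Y731.FG.minOrd P x' = 0 := by
        refine Pool.Agent.Y731.FG.minOrd_eq P (fun c'' hc'' => ?_) ⟨c', h3, h4⟩
        exact (Pool.Agent.TH143.LG.ge_aeval (Or.inr h1.ge) (V c'')).resolve_left hc''
      obtain ⟨j, hj⟩ := hav c μ V hc hV ⟨c', hc'⟩ i
      obtain ⟨h5, h6⟩ := hval P c h1 h2 _ hj
      have hxp' : ∀ F : MvPolynomial (Fin n) ℂ, aeval x' F = Polynomial.aeval Y (aeval V F) := by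
        intro F
        exact (MvPolynomial.comp_aeval_apply (f := V)
          (Polynomial.aeval Y : Polynomial ℂ →ₐ[ℂ] RatFunc ℂ) F).symm
      rw [← hxp'] at h5 h6
      have h7 : Pool.Agent.Y731.FG.locH (E i) (d i) P x' ≤
          P.ord (aeval x' (E i j)) - d i j * Pool.Agent.Y731.FG.minOrd P x' :=
        ciInf_le (f := fun j : {j // aeval x' (E i j) ≠ 0} =>
          P.ord (aeval x' (E i j.1)) - d i j.1 * Pool.Agent.Y731.FG.minOrd P x')
          (Set.finite_range _).bddBelow ⟨j, h5⟩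
      rw [hmin, h6, mul_zero, sub_zero] at h7
      have h8 : localHeight (E i) (d i) P x = Pool.Agent.Y731.FG.locH (E i) (d i) P x := rfl
      rw [h8, hxx, Pool.Agent.Y731.FG.locH_smul P (hE i) (pow_ne_zero _ hπ0) ⟨c', h3⟩]
      exact h7
    · rw [hxp]
      exact fun h0 => hWΦ (hinj _ h0)
    · intro c
      change Polynomial.aeval Y (W c) = ∑ j, algebraMap ℂ (RatFunc ℂ) (a c j) * Y ^ b c j
      rw [hW, map_sum]
      refine Finset.sum_congr rfl fun j _ => ?_
      rw [map_mul, map_pow, Polynomial.aeval_C, Polynomial.aeval_X]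
    · rintro P ⟨c, j, c', j', h1, h2, h3⟩
      by_contra hP
      apply h3
      obtain ⟨h4, -⟩ := hpl P hP
      have h5 : ∀ c j, t c j ≠ 0 → P.ord (t c j) = 0 := by
        intro c j h
        have h6 : a c j ≠ 0 := by
          intro h0
          apply h
          change algebraMap ℂ (RatFunc ℂ) (a c j) * Y ^ b c j = 0
          rw [h0, map_zero, zero_mul]
        change P.ord (algebraMap ℂ (RatFunc ℂ) (a c j) * Y ^ b c j) = 0
        rw [P.ord_mul ((map_ne_zero _).2 h6) (pow_ne_zero _ hY0), P.ord_pow, h4,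
          P.ord_const h6, mul_zero, add_zero]
      rw [h5 c j h1, h5 c' j' h2]
  -- the height is large
  have hr : Transcendental ℂ (algebraMap (Polynomial ℂ) (RatFunc ℂ) (W c1) /
      algebraMap (Polynomial ℂ) (RatFunc ℂ) (W c0)) := by
    have hI := IsFractionRing.injective (Polynomial ℂ) (RatFunc ℂ)
    have h0 : algebraMap (Polynomial ℂ) (RatFunc ℂ) (W c0) ≠ 0 := fun h =>
      hW0 ((map_eq_zero_iff _ hI).1 h)
    refine Pool.Agent.W619.TW.transcendental_of_not_const fun z hz => ?_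
    rw [eq_div_iff h0] at hz
    refine hprop z 1 (Or.inr one_ne_zero) (hI ?_)
    rw [map_mul, map_mul, ← hz, Polynomial.C_1, map_one, mul_one,
      IsScalarTower.algebraMap_apply ℂ (Polynomial ℂ) (RatFunc ℂ)]
    rw [mul_comm]
    rfl
  have h1 := hσh _ hr
  rw [map_div₀, hψ, hψ] at h1
  have h2 : hgt ℂ (x c1 / x c0) ≤ height ℂ x := hgt_le_height x c1 c0 hx1 hx0
  have h3 : ((M : ℤ) + 1 : ℤ) ≤ height ℂ x := by
    refine le_trans ?_ h2
    exact_mod_cast h1
  have h4 : ((M : ℝ) + 1) ≤ (height ℂ x : ℝ) := by exact_mod_cast h3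
  linarith

end Pool.Agent.W2helper39.BR
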