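import Mathlib

/-!
One-parameter groups of block diagonal matrices: the exponents.
-/

set_option autoImplicit false

namespace Pool.Agent.W2helper39.BR

/-- combinations of the functions `t ^ k * exp (μ p * t)`, `k < r` -/
def ES {r : ℕ} (μ : Fin r → ℂ) (φ : ℂ → ℂ) : Prop :=
  ∃ C : Fin r → Fin r → ℂ, ∀ t, φ t = ∑ p, ∑ k : Fin r, C p k * (t ^ (k : ℕ) * Complex.exp (μ p * t))

section

variable {r : ℕ} {μ : Fin r → ℂ}

theorem ES.zero : ES μ fun _ => 0 := ⟨fun _ _ => 0, fun t => by simp⟩

theorem ES.add {f g : ℂ → ℂ} (hf : ES μ f) (hg : ES μ g) : ES μ fun t => f t + g t := by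
  obtain ⟨C, hC⟩ := hf
  obtain ⟨D, hD⟩ := hg
  refine ⟨fun p k => C p k + D p k, fun t => ?_⟩
  simp only [hC, hD, add_mul, Finset.sum_add_distrib]

theorem ES.mul_const {f : ℂ → ℂ} (hf : ES μ f) (a : ℂ) : ES μ fun t => f t * a := by
  obtain ⟨C, hC⟩ := hf
  refine ⟨fun p k => C p k * a, fun t => ?_⟩
  simp only [hC, Finset.sum_mul]
  refine Finset.sum_congr rfl fun p _ => Finset.sum_congr rfl fun k _ => ?_
  ring

theorem ES.const_mul {f : ℂ → ℂ} (hf : ES μ f) (a : ℂ) : ES μ fun t => a * f t := by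
  have h := hf.mul_const a
  simp only [mul_comm _ a] at h
  exact h

theorem ES.sum {ι : Type*} (s : Finset ι) {f : ι → ℂ → ℂ} (hf : ∀ i ∈ s, ES μ (f i)) :
    ES μ fun t => ∑ i ∈ s, f i t := by
  classical
  induction s using Finset.induction_on with
  | empty => simpa using ES.zero
  | insert i s hi ih =>
    simp only [Finset.sum_insert hi]
    exact (hf i (Finset.mem_insert_self i s)).add
      (ih fun j hj => hf j (Finset.mem_insert_of_mem hj))

theorem ES.basic (p k : Fin r) : ES μ fun t => t ^ (k : ℕ) * Complex.exp (μ p * t) := by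
  refine ⟨fun p' k' => if p' = p ∧ k' = k then 1 else 0, fun t => ?_⟩
  rw [Finset.sum_eq_single p, Finset.sum_eq_single k]
  · simp
  · intro k' _ hk'
    simp [hk']
  · intro h
    exact absurd (Finset.mem_univ _) h
  · intro p' _ hp'
    apply Finset.sum_eq_zero
    intro k' _
    simp [hp']
  · intro h
    exact absurd (Finset.mem_univ _) h

end

/-- a list of the eigenvalues -/
theorem exists_mu {V : Type} [AddCommGroup V] [Module ℂ V] [FiniteDimensional ℂ V]
    (T : Module.End ℂ V) {r : ℕ} (hr : Module.finrank ℂ V ≤ r) :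
    ∃ μ : Fin r → ℂ, ∀ x, T.HasEigenvalue x → ∃ p, μ p = x := by
  classical
  let s : Finset ℂ := T.charpoly.roots.toFinset
  have hs : s.card ≤ r := by
    refine le_trans (Multiset.toFinset_card_le _) (le_trans (Polynomial.card_roots' _) ?_)
    rw [LinearMap.charpoly_natDegree]
    exact hr
  have hmem : ∀ x, T.HasEigenvalue x → x ∈ s := by
    intro x hx
    rw [Multiset.mem_toFinset, Polynomial.mem_roots']
    exact ⟨(LinearMap.charpoly_monic T).ne_zero,
      (Module.End.hasEigenvalue_iff_isRoot_charpoly T x).mp hx⟩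
  refine ⟨fun p => if h : (p : ℕ) < s.card then (s.equivFin.symm ⟨p, h⟩ : ℂ) else 0, fun x hx => ?_⟩
  refine ⟨⟨s.equivFin ⟨x, hmem x hx⟩, lt_of_lt_of_le (Fin.is_lt _) hs⟩, ?_⟩
  simp

/-- solutions of linear systems with constant coefficients -/
theorem exists_exp_sol {V : Type} [AddCommGroup V] [Module ℂ V] [FiniteDimensional ℂ V]
    (T : Module.End ℂ V) {r : ℕ} (hr : Module.finrank ℂ V ≤ r) (μ : Fin r → ℂ)
    (hμ : ∀ x, T.HasEigenvalue x → ∃ p, μ p = x) (v : V) :
    ∃ (N : ℕ) (c : Fin N → ℂ → ℂ) (c' : Fin N → ℂ → ℂ) (x : Fin N → V),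
      (∀ i, ES μ (c i)) ∧ (∀ i t, HasDerivAt (c i) (c' i t) t) ∧
      (∑ i, c i 0 • x i = v) ∧ ∀ t, ∑ i, c' i t • x i = T (∑ i, c i t • x i) := by
  have hv : v ∈ ⨆ (μ : ℂ), T.maxGenEigenspace μ := by
    rw [Module.End.iSup_maxGenEigenspace_eq_top]
    exact Submodule.mem_top
  refine Submodule.iSup_induction (fun μ => T.maxGenEigenspace μ)
    (motive := fun v => ∃ (N : ℕ) (c : Fin N → ℂ → ℂ) (c' : Fin N → ℂ → ℂ) (x : Fin N → V),
      (∀ i, ES μ (c i)) ∧ (∀ i t, HasDerivAt (c i) (c' i t) t) ∧
      (∑ i, c i 0 • x i = v) ∧ ∀ t, ∑ i, c' i t • x i = T (∑ i, c i t • x i)) hv ?_ ?_ ?_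
  · intro ν v hv
    by_cases hv0 : v = 0
    · subst hv0
      exact ⟨0, fun i => Fin.elim0 i, fun i => Fin.elim0 i, fun i => Fin.elim0 i,
        fun i => Fin.elim0 i, fun i => Fin.elim0 i, by simp, by simp⟩
    have hev : T.HasEigenvalue ν := by
      have h1 : T.maxGenEigenspace ν ≠ ⊥ := fun h => by
        rw [h, Submodule.mem_bot] at hv
        exact hv0 hv
      by_contra h2
      apply h1
      rw [Module.End.maxGenEigenspace_eq_genEigenspace_finrank]
      have h3 : ¬ T.HasUnifEigenvalue ν (1 : ℕ) := h2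
      by_contra h4
      apply h3
      have h5 : T.HasUnifEigenvalue ν (Module.finrank ℂ V : ℕ) := h4
      refine h5.lt (by norm_num)
    obtain ⟨p, rfl⟩ := hμ ν hev
    have hk : ((T - μ p • 1) ^ r) v = 0 := by
      rw [Module.End.maxGenEigenspace_eq_genEigenspace_finrank,
        Module.End.mem_genEigenspace_nat, LinearMap.mem_ker] at hv
      obtain ⟨j, rfl⟩ := Nat.exists_eq_add_of_le' hr
      rw [pow_add, Module.End.mul_apply]
      have h1 : ((T - μ p • 1) ^ Module.finrank ℂ V) v = 0 := hv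
      rw [h1, map_zero]
    set N : Module.End ℂ V := T - μ p • 1 with hN
    refine ⟨r, fun i t => Complex.exp (μ p * t) * (t ^ (i : ℕ) * ((i : ℕ).factorial : ℂ)⁻¹),
      fun i t => μ p * (Complex.exp (μ p * t) * (t ^ (i : ℕ) * ((i : ℕ).factorial : ℂ)⁻¹))
        + Complex.exp (μ p * t) * (((i : ℕ) : ℂ) * t ^ ((i : ℕ) - 1) * ((i : ℕ).factorial : ℂ)⁻¹),
      fun i => (N ^ (i : ℕ)) v, ?_, ?_, ?_, ?_⟩
    · intro i
      have h1 := (ES.basic (μ := μ) p i).mul_const ((i : ℕ).factorial : ℂ)⁻¹
      have h2 : (fun t : ℂ => t ^ (i : ℕ) * Complex.exp (μ p * t) * ((i : ℕ).factorial : ℂ)⁻¹) =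
          fun t => Complex.exp (μ p * t) * (t ^ (i : ℕ) * ((i : ℕ).factorial : ℂ)⁻¹) := by
        funext t
        ring
      rw [h2] at h1
      exact h1
    · intro i t
      have h1 : HasDerivAt (fun t : ℂ => Complex.exp (μ p * t)) (Complex.exp (μ p * t) * μ p) t := by
        have := ((hasDerivAt_id t).const_mul (μ p)).cexp
        simpa using this
      have h2 : HasDerivAt (fun t : ℂ => t ^ (i : ℕ) * ((i : ℕ).factorial : ℂ)⁻¹)
          (((i : ℕ) : ℂ) * t ^ ((i : ℕ) - 1) * ((i : ℕ).factorial : ℂ)⁻¹) t :=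
        (hasDerivAt_pow _ t).mul_const _
      refine (h1.mul h2).congr_deriv ?_
      ring
    · simp only [mul_zero, Complex.exp_zero, one_mul]
      cases r with
      | zero =>
        simp only [pow_zero, Module.End.one_apply] at hk
        simp [hk]
      | succ k =>
        rw [Fin.sum_univ_succ]
        simp
    · intro t
      rw [map_sum]
      have hT : ∀ w, T w = μ p • w + N w := by
        intro w
        rw [hN]
        simp
      simp only [map_smul]
      have h1 : ∀ i : Fin r, T ((N ^ (i : ℕ)) v) = μ p • (N ^ (i : ℕ)) v + (N ^ ((i : ℕ) + 1)) v := by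
        intro i
        rw [hT, pow_succ', Module.End.mul_apply]
      simp only [h1, smul_add, add_smul, Finset.sum_add_distrib]
      congr 1
      · refine Finset.sum_congr rfl fun i _ => ?_
        rw [smul_smul]
        ring_nf
      · cases r with
        | zero => simp
        | succ k =>
          rw [Fin.sum_univ_succ, Fin.sum_univ_castSucc]
          have h2 : (N ^ ((Fin.last k : ℕ) + 1)) v = 0 := by
            simpa using hk
          rw [h2, smul_zero, add_zero]
          simp only [Fin.val_zero, Nat.cast_zero, zero_mul, mul_zero, zero_smul, zero_add]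
          refine Finset.sum_congr rfl fun i _ => ?_
          simp only [Fin.val_succ, Fin.val_castSucc, Nat.add_sub_cancel]
          congr 1
          rw [Nat.factorial_succ]
          have h3 : ((i : ℕ) : ℂ) + 1 ≠ 0 := Nat.cast_add_one_ne_zero _
          push_cast
          rw [mul_inv]
          field_simp
  · exact ⟨0, fun i => Fin.elim0 i, fun i => Fin.elim0 i, fun i => Fin.elim0 i, fun i => Fin.elim0 i,
      fun i => Fin.elim0 i, by simp, by simp⟩
  · rintro v w ⟨N, c, c', x, h1, h2, h3, h4⟩ ⟨M, d, d', y, k1, k2, k3, k4⟩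
    refine ⟨N + M, Fin.append c d, Fin.append c' d', Fin.append x y, ?_, ?_, ?_, ?_⟩
    · intro i
      refine Fin.addCases (fun i => ?_) (fun i => ?_) i
      · rw [Fin.append_left]; exact h1 i
      · rw [Fin.append_right]; exact k1 i
    · intro i
      refine Fin.addCases (fun i => ?_) (fun i => ?_) i
      · rw [Fin.append_left, Fin.append_left]; exact h2 i
      · rw [Fin.append_right, Fin.append_right]; exact k2 i
    · rw [Fin.sum_univ_add]
      simp only [Fin.append_left, Fin.append_right]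
      rw [h3, k3]
    · intro t
      rw [Fin.sum_univ_add, Fin.sum_univ_add]
      simp only [Fin.append_left, Fin.append_right]
      rw [h4, k4, map_add]

/-- The one-parameter group of a block diagonal matrix. -/
theorem exists_flow {n M : ℕ} (blk : Fin n → Fin M) {r : ℕ}
    (hr : ∀ j, (Finset.univ.filter fun i => blk i = j).card ≤ r) (β : Matrix (Fin n) (Fin n) ℂ)
    (hβ : ∀ i k, blk i ≠ blk k → β i k = 0) :
    ∃ (e : ℂ → Matrix (Fin n) (Fin n) ℂ) (μ : Fin M → Fin r → ℂ), e 0 = 1 ∧
      (∀ t i j, HasDerivAt (fun s => e s i j) ((e t * β) i j) t) ∧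
      ∀ i k, ES (μ (blk i)) (fun t => e t i k) := by
  classical
  let T : Module.End ℂ (Fin n → ℂ) := Matrix.toLin' β.transpose
  have hT : ∀ x j, T x j = ∑ k, β k j * x k := by
    intro x j
    simp only [T, Matrix.toLin'_apply, Matrix.mulVec, dotProduct, Matrix.transpose_apply]
  let V : Fin M → Submodule ℂ (Fin n → ℂ) := fun b =>
    { carrier := {x | ∀ k, blk k ≠ b → x k = 0}
      add_mem' := fun {x y} hx hy k hk => by rw [Pi.add_apply, hx k hk, hy k hk, add_zero]
      zero_mem' := fun k _ => rfl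
      smul_mem' := fun c x hx k hk => by rw [Pi.smul_apply, hx k hk, smul_zero] }
  have hV : ∀ b x, x ∈ V b ↔ ∀ k, blk k ≠ b → x k = 0 := fun b x => Iff.rfl
  have hTV : ∀ b, ∀ x ∈ V b, T x ∈ V b := by
    intro b x hx
    rw [hV] at hx ⊢
    intro j hj
    rw [hT]
    apply Finset.sum_eq_zero
    intro k _
    by_cases hk : blk k = b
    · rw [hβ k j (fun h => hj (by rw [← h, hk])), zero_mul]
    · rw [hx k hk, mul_zero]
  have hrank : ∀ b, Module.finrank ℂ (V b) ≤ r := by
    intro b
    let φ : V b →ₗ[ℂ] ({i // blk i = b} → ℂ) :=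
      { toFun := fun x i => x.1 i.1
        map_add' := fun x y => rfl
        map_smul' := fun c x => rfl }
    have hφ : Function.Injective φ := by
      intro x y hxy
      apply Subtype.ext
      funext k
      by_cases hk : blk k = b
      · exact congrFun hxy ⟨k, hk⟩
      · rw [(hV b x.1).mp x.2 k hk, (hV b y.1).mp y.2 k hk]
    have h1 := LinearMap.finrank_le_finrank_of_injective hφ
    rw [Module.finrank_fintype_fun_eq_card, Fintype.card_subtype] at h1
    exact h1.trans (hr b)
  choose μ hμ using fun b => exists_mu ((T.restrict (hTV b)) : Module.End ℂ (V b)) (hrank b)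
  have hs : ∀ i : Fin n, Pi.single i (1 : ℂ) ∈ V (blk i) := by
    intro i
    rw [hV]
    intro k hk
    exact Pi.single_eq_of_ne (fun h => hk (by rw [h])) _
  choose N c c' x hc hc' h0 hsol using fun i : Fin n =>
    exists_exp_sol ((T.restrict (hTV (blk i))) : Module.End ℂ (V (blk i))) (hrank _) (μ (blk i))
      (hμ _) ⟨Pi.single i (1 : ℂ), hs i⟩
  have h0' : ∀ i : Fin n, ∑ l, c i l 0 • (x i l : Fin n → ℂ) = Pi.single i (1 : ℂ) := by
    intro i
    have h1 := congrArg (Submodule.subtype (V (blk i))) (h0 i)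
    rw [map_sum] at h1
    exact h1
  have hsol' : ∀ (i : Fin n) (t : ℂ), ∑ l, c' i l t • (x i l : Fin n → ℂ) =
      T (∑ l, c i l t • (x i l : Fin n → ℂ)) := by
    intro i t
    have h1 := congrArg (Submodule.subtype (V (blk i))) (hsol i t)
    rw [map_sum] at h1
    have h2 : (Submodule.subtype (V (blk i))) ((T.restrict (hTV (blk i)))
        (∑ l, c i l t • x i l)) = T ((Submodule.subtype (V (blk i))) (∑ l, c i l t • x i l)) := rfl
    rw [h2, map_sum] at h1
    exact h1
  refine ⟨fun t => Matrix.of fun i j => (∑ l, c i l t • (x i l : Fin n → ℂ)) j, μ, ?_, ?_, ?_⟩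
  · ext i j
    simp only [Matrix.of_apply]
    rw [h0' i, Matrix.one_apply, Pi.single_apply]
    simp only [eq_comm]
  · intro t i j
    simp only [Matrix.of_apply]
    have h2 : HasDerivAt (fun s => (∑ l, c i l s • (x i l : Fin n → ℂ)) j)
        ((∑ l, c' i l t • (x i l : Fin n → ℂ)) j) t := by
      have h3 : (fun s => (∑ l, c i l s • (x i l : Fin n → ℂ)) j) =
          fun s => ∑ l, c i l s * (x i l : Fin n → ℂ) j := by
        funext s
        rw [Finset.sum_apply]
        rfl
      rw [h3, Finset.sum_apply]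
      apply HasDerivAt.fun_sum
      intro l _
      exact (hc' i l t).mul_const _
    refine h2.congr_deriv ?_
    rw [hsol' i t, hT, Matrix.mul_apply]
    simp only [Matrix.of_apply]
    refine Finset.sum_congr rfl fun k _ => ?_
    ring
  · intro i j
    simp only [Matrix.of_apply]
    have h3 : (fun s => (∑ l, c i l s • (x i l : Fin n → ℂ)) j) =
        fun s => ∑ l, c i l s * (x i l : Fin n → ℂ) j := by
      funext s
      rw [Finset.sum_apply]
      rfl
    rw [h3]
    exact ES.sum _ fun l _ => (hc i l).mul_const _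

end Pool.Agent.W2helper39.BR
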