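import Pool.Agent.W2helper39.BR.Dom
import Pool.Agent.TH143.Fin

/-!
Punctured discs: linear differential equations of bounded order with coefficients meromorphic at the
puncture.
-/

set_option autoImplicit false

namespace Pool.Agent.W2helper39.BR

open MvPolynomial Metric
open Filter Topology Pool.Agent.TH143 Pool.Agent.W603.BP

/-- the functions holomorphic on the punctured disc and meromorphic at the centre -/
def coefs (δ : ℝ) : Subalgebra ℂ (ℂ → ℂ) where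
  carrier := {b | AnalyticOnNhd ℂ b (PB δ) ∧ MeromorphicAt b 0}
  mul_mem' := fun ha hb => ⟨ha.1.mul hb.1, ha.2.mul hb.2⟩
  add_mem' := fun ha hb => ⟨ha.1.add hb.1, ha.2.add hb.2⟩
  algebraMap_mem' := fun c => ⟨analyticOnNhd_const, MeromorphicAt.const c 0⟩

theorem coefs_ring (δ : ℝ) : DiffRing (PB δ) (coefs δ) where
  an := fun _ hb => hb.1
  der := fun b hb => ⟨deriv b, ⟨hb.1.deriv, hb.2.deriv⟩, fun z hz =>
    (hb.1 z hz).differentiableAt.hasDerivAt⟩

/-- algebraic over the coefficients -/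
theorem mrel_of_algOver {δ : ℝ} (hδ : 0 < δ) {e e' : ℂ → ℂ} (he : Pun e) (he' : Pun e')
    (hn : Nz e') (h : AlgOver (PB δ) (coefs δ) e e') : MRel e e' := by
  obtain ⟨m, c, hc, ⟨k, hk, z, hz, hkz⟩, hall⟩ := h
  refine mrel_of_alg he he' hn m c (fun k => (hc k).2) ⟨k, hk, fun h0 => ?_⟩
    (ev_iff.mpr ⟨δ, hδ, hall⟩)
  exact hkz (eq_zero_on hδ (hc k).1 h0 z hz)

/-- The coefficients are holomorphic on a small punctured disc. -/
theorem OdeAt.over {r : ℕ} {g : ℂ → ℂ} (h : OdeAt r g) :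
    ∃ δ > 0, ∀ δ' : ℝ, 0 < δ' → δ' ≤ δ → OdeOver (PB δ') (coefs δ') r g := by
  obtain ⟨a, ha, ⟨k0, hk0, hn⟩, h⟩ := h
  have h1 : ∀ᶠ w in 𝓝[≠] (0 : ℂ), ∀ k ∈ Finset.range (r + 1), AnalyticAt ℂ (a k) w := by
    rw [Filter.eventually_all_finset]
    intro k _
    exact Pun.mero (ha k)
  obtain ⟨δ, hδ, hall⟩ := ev_iff.mp (h1.and h)
  refine ⟨δ, hδ, fun δ' hδ' hle => ⟨fun k => if k ≤ r then a k else 0, fun k => ?_, ?_, ?_⟩⟩
  · change (if k ≤ r then a k else 0) ∈ coefs δ'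
    by_cases hk : k ≤ r
    · rw [if_pos hk]
      exact ⟨fun w hw => (hall w (PB_mono hle hw)).1 k (Finset.mem_range.mpr (by omega)), ha k⟩
    · rw [if_neg hk]
      exact Subalgebra.zero_mem _
  · refine ⟨k0, hk0, ?_⟩
    by_contra hcon
    push Not at hcon
    apply hn
    rw [if_pos hk0] at hcon
    exact ev_iff.mpr ⟨δ', hδ', hcon⟩
  · intro z hz
    rw [← (hall z (PB_mono hle hz)).2]
    refine Finset.sum_congr rfl fun k hk => ?_
    change (if k ≤ r then a k else 0) z * _ = _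
    rw [if_pos (by have := Finset.mem_range.mp hk; omega)]

theorem OdeAt.linODE {r : ℕ} {g : ℂ → ℂ} (h : OdeAt r g) : LinODE g := by
  obtain ⟨a, ha, hn, h⟩ := h
  exact ⟨r, a, ha, hn, h⟩

/-- the growth of the solutions -/
theorem grow_of_linSys {M : ℕ} {f : ℂ → Fin M → ℂ} (hlin : LinSys f) (j : Fin M) :
    Grow (fun w => f w j) := by
  obtain ⟨n, A, y, L, hA, hy, hfL⟩ := hlin
  obtain ⟨C, K, hC, hgr⟩ := growth_sol A hA y hy
  have h2 : Grow (fun w => ∑ k, L j k * y w k) := Grow.sum _ fun k _ =>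
    (Grow.const _).mul ⟨C, K, hC, by filter_upwards [hgr] with w hw using hw k⟩
  exact h2.congr (by filter_upwards [hfL] with w hw using hw j)

/-- **Punctured discs.** -/
theorem pun_main {n r : ℕ} (f : ℂ → Fin (n + 1) → ℂ)
    (hf : ∀ j, AnalyticOnNhd ℂ (fun w => f w j) (PB 1)) (hne : ∀ w ∈ PB 1, f w ≠ 0)
    (hode : ∀ j, OdeAt r fun w => f w j)
    {ι : Type} (G : ι → MvPolynomial (Fin (n + 1)) ℂ) (hG : ∀ z ∈ PB 1, ∀ i, eval (f z) (G i) = 0)
    (Q : MvPolynomial (Fin (n + 1)) ℂ) (hQ : ∀ z ∈ PB 1, eval (f z) Q ≠ 0)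
    (Φ : MvPolynomial (Fin (n + 1)) ℂ) (hΦ : GmQ r G Q Φ) (hess : ¬ Extends f) :
    ∀ z ∈ PB 1, eval (f z) Φ = 0 := by
  classical
  have hlin : LinSys f := linSys_of_linODE f one_pos hf fun j => (hode j).linODE
  have hqan : AnalyticOnNhd ℂ (fun w => eval (f w) Q) (PB 1) := eval_an hf Q
  obtain ⟨C', K', hC', hgrQ⟩ := Grow.eval (grow_of_linSys hlin) Q
  obtain ⟨b, hb, hbd⟩ := logderiv_mero hqan hQ hC' hgrQ
  choose δ0 hδ0 hδ0' using fun j => (hode j).over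
  obtain ⟨δ1, hδ1, hall⟩ := ev_iff.mp (hbd.and (Pun.mero hb))
  obtain ⟨δ2, hδ2, hδ2'⟩ : ∃ δ2 > 0, ∀ j, δ2 ≤ δ0 j :=
    ⟨Finset.univ.inf' Finset.univ_nonempty δ0, by
      rw [gt_iff_lt, Finset.lt_inf'_iff]
      exact fun j _ => hδ0 j, fun j => Finset.inf'_le _ (Finset.mem_univ j)⟩
  set δ := min (min δ1 δ2) 1 with hδ
  have hδpos : 0 < δ := by positivity
  have hδ1' : PB δ ⊆ PB 1 := PB_mono (min_le_right _ _)
  have hδd : PB δ ⊆ PB δ1 := PB_mono ((min_le_left _ _).trans (min_le_left _ _))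
  have hmain := dom_main (PB_open δ) (PB_preconn hδpos) (coefs_ring δ) f
    (fun j => (hf j).mono hδ1') (fun z hz => hne z (hδ1' hz))
    (fun j => hδ0' j δ hδpos (((min_le_left _ _).trans (min_le_right _ _)).trans (hδ2' j)))
    G (fun z hz => hG z (hδ1' hz)) Q (fun z hz => hQ z (hδ1' hz))
    ⟨1, Subalgebra.one_mem _, b, ⟨fun w hw => (hall w (hδd hw)).2, hb⟩, by
      obtain ⟨z, hz⟩ := PB_nonempty hδpos
      exact ⟨z, hz, by simp⟩, fun z hz => by
      rw [(hall z (hδd hz)).1.deriv]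
      simp⟩ Φ hΦ
  rcases hmain with h | h
  · exfalso
    apply hess
    apply extends_of f hf hne
    intro j k hj hk
    refine mrel_of_algOver hδpos (on_pun one_pos (hf j)) (on_pun one_pos (hf k)) hk (h j k ?_)
    obtain ⟨w, hw, hw'⟩ := nz_on hδpos hk
    exact ⟨w, hw, hw'⟩
  · exact eq_zero_on one_pos (eval_an hf Φ) (ev_iff.mpr ⟨δ, hδpos, h⟩)

end Pool.Agent.W2helper39.BR
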