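import Pool.Agent.TH143.Gen
import Pool.Agent.W2helper39.BR.Defs

/-!
Linear differential equations of bounded order: the system with its blocks.
-/

set_option autoImplicit false

namespace Pool.Agent.W2helper39.BR

open Metric Set Filter Topology Pool.Agent.W603.BP Pool.Agent.TH143

/-- a single system for finitely many functions -/
theorem exists_system2 {M r : ℕ} (f : Fin M → ℂ → ℂ) (m : Fin M → ℕ) (hm : ∀ j, m j ≤ r)
    (c : Fin M → ℕ → ℂ → ℂ) :
    ∃ (n : ℕ) (A : Fin n → Fin n → ℂ → ℂ) (y : ℂ → Fin n → ℂ) (L : Fin M → Fin n → ℂ)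
      (blk : Fin n → Fin M),
      (∀ j, (Finset.univ.filter fun i => blk i = j).card ≤ r) ∧
      (∀ i k, blk i ≠ blk k → ∀ w, A i k w = 0) ∧ (∀ j k, blk k ≠ j → L j k = 0) ∧
      (∀ i k, ∃ (α ε : ℂ) (j : Fin M) (l : ℕ), (blk i ≠ blk k → α = 0 ∧ ε = 0) ∧
        ∀ w, A i k w = α + ε * c j l w) ∧
      ∀ w, (∀ j, AnalyticAt ℂ (f j) w) → (∀ j, iteratedDeriv (m j) (f j) w
          = ∑ k ∈ Finset.range (m j), c j k w * iteratedDeriv k (f j) w) →
        (∀ i, HasDerivAt (fun w => y w i) (∑ k, A i k w * y w k) w) ∧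
        ∀ j, f j w = ∑ k, L j k * y w k := by
  classical
  let I := Σ j : Fin M, Fin (m j)
  let e : I ≃ Fin (Fintype.card I) := Fintype.equivFin I
  let A0 : I → I → ℂ → ℂ := fun p q w =>
    if p.1 = q.1 then (if (p.2 : ℕ) + 1 = q.2 then 1 else 0)
      + (if (p.2 : ℕ) + 1 = m p.1 then c p.1 q.2 w else 0) else 0
  let y0 : ℂ → I → ℂ := fun w p => iteratedDeriv p.2 (f p.1) w
  refine ⟨Fintype.card I, fun i k => A0 (e.symm i) (e.symm k), fun w i => y0 w (e.symm i),
    fun j i => if (e.symm i).1 = j ∧ ((e.symm i).2 : ℕ) = 0 then 1 else 0,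
    fun i => (e.symm i).1, ?_, ?_, ?_, ?_, ?_⟩
  · intro j
    have h1 : (Finset.univ.filter fun i => (e.symm i).1 = j).card ≤ (m j) := by
      have h2 : (Finset.univ.filter fun i => (e.symm i).1 = j) ⊆
          Finset.univ.image fun x : Fin (m j) => e ⟨j, x⟩ := by
        intro i hi
        rw [Finset.mem_filter] at hi
        rw [Finset.mem_image]
        obtain ⟨-, hi⟩ := hi
        subst hi
        exact ⟨(e.symm i).2, Finset.mem_univ _, by simp⟩
      refine (Finset.card_le_card h2).trans (Finset.card_image_le.trans ?_)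
      simp
    exact h1.trans (hm j)
  · intro i k hik w
    simp only [A0]
    rw [if_neg hik]
  · intro j k hjk
    exact if_neg (fun h => hjk h.1)
  · intro i k
    refine ⟨if (e.symm i).1 = (e.symm k).1 then
      (if ((e.symm i).2 : ℕ) + 1 = (e.symm k).2 then 1 else 0) else 0,
      if (e.symm i).1 = (e.symm k).1 then
      (if ((e.symm i).2 : ℕ) + 1 = m (e.symm i).1 then 1 else 0) else 0,
      (e.symm i).1, (e.symm k).2, fun h => ⟨if_neg h, if_neg h⟩, fun w => ?_⟩
    simp only [A0]
    split_ifs <;> ring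
  · intro w hf h
    constructor
    · intro i
      have h1 : HasDerivAt (fun w => y0 w (e.symm i))
          (iteratedDeriv (((e.symm i).2 : ℕ) + 1) (f (e.symm i).1) w) w := by
        obtain ⟨U, hU, hUf⟩ := (hf (e.symm i).1).exists_mem_nhds_analyticOnNhd
        exact hasDerivAt_iter hUf _ (mem_of_mem_nhds hU)
      refine h1.congr_deriv ?_
      rw [Equiv.sum_comp e.symm (fun q => A0 (e.symm i) q w * y0 w q)]
      obtain ⟨j, k⟩ := e.symm i
      rw [Fintype.sum_sigma, Finset.sum_eq_single j]
      · simp only [A0, y0, if_true, add_mul, Finset.sum_add_distrib]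
        by_cases hk : (k : ℕ) + 1 = m j
        · have h2 : ∑ x : Fin (m j), (if (k : ℕ) + 1 = (x : ℕ) then (1 : ℂ) else 0)
              * iteratedDeriv (x : ℕ) (f j) w = 0 := by
            apply Finset.sum_eq_zero
            intro x _
            rw [if_neg (by have := x.2; omega), zero_mul]
          rw [h2, zero_add, hk, h j, Finset.sum_range]
          refine Finset.sum_congr rfl fun x _ => ?_
          simp
        · have hk' : (k : ℕ) + 1 < m j := lt_of_le_of_ne k.2 hk
          rw [Finset.sum_eq_single (⟨(k : ℕ) + 1, hk'⟩ : Fin (m j))]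
          · simp [hk]
          · intro x _ hx
            rw [if_neg, zero_mul]
            intro h3
            apply hx
            exact Fin.ext h3.symm
          · intro h3
            exact absurd (Finset.mem_univ _) h3
      · intro j' _ hj'
        apply Finset.sum_eq_zero
        intro x _
        simp only [A0]
        rw [if_neg (Ne.symm hj'), zero_mul]
      · intro h3
        exact absurd (Finset.mem_univ _) h3
    · intro j
      rw [Equiv.sum_comp e.symm
        (fun q => (if q.1 = j ∧ (q.2 : ℕ) = 0 then (1 : ℂ) else 0) * y0 w q)]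
      rw [Fintype.sum_sigma, Finset.sum_eq_single j]
      · simp only [y0, true_and]
        by_cases hm : m j = 0
        · have h1 := h j
          rw [hm, Finset.range_zero, Finset.sum_empty, iteratedDeriv_zero] at h1
          rw [h1]
          symm
          apply Finset.sum_eq_zero
          intro x _
          have h2 := x.2
          omega
        · rw [Finset.sum_eq_single (⟨0, Nat.pos_of_ne_zero hm⟩ : Fin (m j))]
          · simp
          · intro x _ hx
            rw [if_neg, zero_mul]
            intro h3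
            apply hx
            exact Fin.ext h3
          · intro h3
            exact absurd (Finset.mem_univ _) h3
      · intro j' _ hj'
        apply Finset.sum_eq_zero
        intro x _
        rw [if_neg (fun h3 => hj' h3.1), zero_mul]
      · intro h3
        exact absurd (Finset.mem_univ _) h3

theorem OdeOver.normal {Ω : Set ℂ} {B : Subalgebra ℂ (ℂ → ℂ)} {r : ℕ} {g : ℂ → ℂ}
    (h : OdeOver Ω B r g) : ∃ (m : ℕ) (l : ℂ → ℂ) (a : ℕ → ℂ → ℂ), m ≤ r ∧ l ∈ B ∧
      (∀ k, a k ∈ B) ∧ (∃ z ∈ Ω, l z ≠ 0) ∧ ∀ z ∈ Ω, l z ≠ 0 →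
        iteratedDeriv m g z = ∑ k ∈ Finset.range m, (a k z / l z) * iteratedDeriv k g z := by
  classical
  obtain ⟨a, ha, ⟨k0, hk0, hn⟩, h⟩ := h
  let T := (Finset.range (r + 1)).filter fun k => ∃ z ∈ Ω, a k z ≠ 0
  have hT : T.Nonempty :=
    ⟨k0, Finset.mem_filter.mpr ⟨Finset.mem_range.mpr (Nat.lt_succ_of_le hk0), hn⟩⟩
  set l := T.max' hT with hl
  have hlT : l ∈ T := T.max'_mem hT
  have hlm : l ≤ r := Nat.lt_succ_iff.mp (Finset.mem_range.mp (Finset.mem_filter.mp hlT).1)
  have hlN : ∃ z ∈ Ω, a l z ≠ 0 := (Finset.mem_filter.mp hlT).2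
  have hbig : ∀ k ∈ Finset.range (r + 1), k ∉ Finset.range (l + 1) → ∀ z ∈ Ω, a k z = 0 := by
    intro k hk hkl z hz
    by_contra hcon
    have : k ∈ T := Finset.mem_filter.mpr ⟨hk, z, hz, hcon⟩
    have h2 := T.le_max' k this
    rw [Finset.mem_range] at hkl
    omega
  refine ⟨l, a l, fun k => -(a k), hlm, ha l, fun k => B.neg_mem (ha k), hlN, fun z hz hlz => ?_⟩
  have h1 := h z hz
  have hsub : Finset.range (l + 1) ⊆ Finset.range (r + 1) := by
    intro k hk
    rw [Finset.mem_range] at hk ⊢
    omega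
  rw [← Finset.sum_subset hsub (by
    intro k hk hk'
    rw [hbig k hk hk' z hz, zero_mul]), Finset.sum_range_succ] at h1
  have h4 : ∑ k ∈ Finset.range l, ((-(a k)) z / a l z) * iteratedDeriv k g z
      = -(a l z)⁻¹ * ∑ k ∈ Finset.range l, a k z * iteratedDeriv k g z := by
    rw [Finset.mul_sum]
    refine Finset.sum_congr rfl fun k _ => ?_
    rw [Pi.neg_apply]
    field_simp
  rw [h4]
  have h5 : ∑ k ∈ Finset.range l, a k z * iteratedDeriv k g z
      = -(a l z * iteratedDeriv l g z) := by
    linear_combination h1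
  rw [h5]
  field_simp

end Pool.Agent.W2helper39.BR
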